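import Pool.Agent.W539.Cone.Link

/-! # From the relative to the absolute cone over a base of Fano type -/

set_option autoImplicit false

namespace Pool.Agent.W539.Cone

/-- The situation of a fibration `f : X → Z` with `K_X + Δ₀ ≡ -f^* H`, `H` ample on `Z`, on the level
of `N^1`: `W` (`= f^* N^1(Z)`) is a rational subspace, `S` (the `(K_X + Δ₀)`-negative extremal curves)
a set of functionals which are integral on the lattice and nonnegative on the cone, have only finitely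
many different restrictions to `W`, and together with the condition `x ∈ E + W` they decide which
lattice elements `x` belong to the cone. -/
structure FanoBase {V : Type} [NormedAddCommGroup V] [NormedSpace ℝ V] (R : ConeRep V)
    (W : Submodule ℝ V) (S : Set (V →ₗ[ℝ] ℝ)) : Prop where
  rational : Submodule.span ℝ {x : V | x ∈ R.L ∧ x ∈ W} = W
  integral : ∀ r ∈ S, ∀ x ∈ R.L, ∃ n : ℤ, r x = n
  finite : {ζ : W →ₗ[ℝ] ℝ | ∃ r ∈ S, ∀ w : W, ζ w = r w}.Finite
  nonneg : ∀ r ∈ S, ∀ x ∈ R.E, 0 ≤ r x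
  cut : ∀ x ∈ R.L, (∃ y ∈ R.E, x - y ∈ W) → (∀ r ∈ S, 0 ≤ r x) → x ∈ R.E

/-- A weak rational polyhedral fundamental domain relative to `W`: finitely many lattice elements of
the cone such that every element of the cone has a translate in the cone spanned by them plus `W`. -/
def RelDomain {V : Type} [NormedAddCommGroup V] [NormedSpace ℝ V] (R : ConeRep V)
    (W : Submodule ℝ V) : Prop :=
  ∃ s : Finset V, (∀ v ∈ s, v ∈ R.L ∧ v ∈ R.E) ∧
    ∀ x ∈ R.E, ∃ γ ∈ R.Γ, ∃ y ∈ cone (s : Set V), γ x - y ∈ W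

section

variable {V : Type} [NormedAddCommGroup V] [NormedSpace ℝ V]

/-- Dickson's lemma for functionals with values in `ℕ` on a finite set. -/
lemma dickson (S : Set (V →ₗ[ℝ] ℝ)) (s : Finset V)
    (hS : ∀ r ∈ S, ∀ v ∈ s, ∃ n : ℕ, r v = n) :
    ∃ J : Finset (V →ₗ[ℝ] ℝ), (∀ r ∈ J, r ∈ S) ∧ ∀ r ∈ S, ∃ r' ∈ J, ∀ v ∈ s, r' v ≤ r v := by
  classical
  let A : Set (s → ℕ) := {n | ∃ r ∈ S, ∀ v : s, r v = n v}
  have hA : A.IsPWO := Set.isPWO_of_wellQuasiOrderedLE A
  set M := {n | Minimal (· ∈ A) n} with hM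
  have hMfin : M.Finite :=
    (setOfPred_minimal_antichain (· ∈ A)).finite_of_partiallyWellOrderedOn
      (hA.mono fun n hn => hn.prop)
  have hch : ∀ n : M, ∃ r ∈ S, ∀ v : s, r v = (n.1 v : ℝ) := fun n => n.2.prop
  choose f hfS hf using hch
  have := hMfin.fintype
  refine ⟨Finset.univ.image f, ?_, ?_⟩
  · intro r hr
    obtain ⟨n, -, rfl⟩ := Finset.mem_image.1 hr
    exact hfS n
  · intro r hr
    choose! g hg using hS r hr
    have ha : (fun v : s => g v) ∈ A := ⟨r, hr, fun v => hg v v.2⟩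
    obtain ⟨b, hb, hbm⟩ := hA.exists_le_minimal ha
    refine ⟨f ⟨b, hbm⟩, Finset.mem_image_of_mem _ (Finset.mem_univ _), fun v hv => ?_⟩
    rw [hf ⟨b, hbm⟩ ⟨v, hv⟩, hg v hv]
    exact_mod_cast hb ⟨v, hv⟩

/-- adding a rational subspace to a rational polyhedral cone -/
lemma ratPoly_add [FiniteDimensional ℝ V] {L : AddSubgroup V} {s : Finset V}
    (hs : ∀ v ∈ s, v ∈ L) {W : Submodule ℝ V}
    (hW : Submodule.span ℝ {x : V | x ∈ L ∧ x ∈ W} = W) :
    RatPoly L {x | ∃ y ∈ cone (s : Set V), x - y ∈ W} := by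
  classical
  obtain ⟨b, hb, hspan, hlin⟩ := exists_linearIndependent ℝ {x : V | x ∈ L ∧ x ∈ W}
  have hbf : b.Finite := hlin.setFinite
  rw [hW] at hspan
  refine ⟨s ∪ (hbf.toFinset ∪ hbf.toFinset.image fun v => -v), ?_, ?_⟩
  · intro v hv
    rcases Finset.mem_union.1 hv with h | h
    · exact hs v h
    · rcases Finset.mem_union.1 h with h | h
      · exact (hb ((Set.Finite.mem_toFinset _).1 h)).1
      · obtain ⟨u, hu, rfl⟩ := Finset.mem_image.1 h
        exact L.neg_mem (hb ((Set.Finite.mem_toFinset _).1 hu)).1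
  · set t : Finset V := hbf.toFinset ∪ hbf.toFinset.image fun v => -v with ht
    have hWt : ∀ w ∈ W, w ∈ cone (t : Set V) ∧ -w ∈ cone (t : Set V) := by
      intro w hw
      rw [← hspan] at hw
      induction hw using Submodule.span_induction with
      | mem x hx =>
        refine ⟨subset_cone _ ?_, subset_cone _ ?_⟩
        · rw [ht]
          simp [hx]
        · rw [ht]
          simp [hx]
      | zero => exact ⟨cone_zero _, by rw [neg_zero]; exact cone_zero _⟩
      | add x y _ _ hx hy =>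
        exact ⟨cone_add hx.1 hy.1, by rw [neg_add]; exact cone_add hx.2 hy.2⟩
      | smul c x _ hx =>
        rcases le_total 0 c with hc | hc
        · exact ⟨cone_smul hc hx.1, by rw [← smul_neg]; exact cone_smul hc hx.2⟩
        · refine ⟨?_, ?_⟩
          · have := cone_smul (c := -c) (neg_nonneg.2 hc) hx.2
            rwa [neg_smul_neg] at this
          · have := cone_smul (c := -c) (neg_nonneg.2 hc) hx.1
            rwa [neg_smul] at this
    ext x
    constructor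
    · rintro ⟨y, hy, hxy⟩
      have h1 := cone_add (cone_mono (t := ((s ∪ t : Finset V) : Set V)) (by simp) hy)
        (cone_mono (t := ((s ∪ t : Finset V) : Set V)) (by simp) (hWt _ hxy).1)
      rwa [add_sub_cancel] at h1
    · intro hx
      -- the right hand side is a sum
      have hx' : x ∈ Submodule.span NNReal ((s ∪ t : Finset V) : Set V) := hx
      rw [Finset.coe_union, Submodule.span_union, Submodule.mem_sup] at hx'
      obtain ⟨y, hy, z, hz, rfl⟩ := hx'
      refine ⟨y, hy, ?_⟩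
      rw [add_sub_cancel_left]
      have : (Submodule.span NNReal (t : Set V)) ≤ W.restrictScalars NNReal := by
        rw [Submodule.span_le]
        intro v hv
        rw [Finset.mem_coe, ht, Finset.mem_union, Finset.mem_image] at hv
        rcases hv with h | ⟨u, hu, rfl⟩
        · exact (hb ((Set.Finite.mem_toFinset _).1 h)).2
        · exact W.neg_mem (hb ((Set.Finite.mem_toFinset _).1 hu)).2
      exact this hz

end

lemma relDomain_of_good {V : Type} [NormedAddCommGroup V] [NormedSpace ℝ V] (R : ConeRep V)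
    (W : Submodule ℝ V) (hR : R.Good) : RelDomain R W := by
  obtain ⟨s, hs, hcov⟩ := weak_of_dom hR
  refine ⟨s, hs, fun x hx => ?_⟩
  obtain ⟨γ, hγ, hγx⟩ := hcov x hx
  exact ⟨γ, hγ, γ x, hγx, by rw [sub_self]; exact W.zero_mem⟩

/-- The relative cone conjecture implies the absolute one over a base of Fano type. -/
theorem fano_base_good {V : Type} [NormedAddCommGroup V] [NormedSpace ℝ V] [FiniteDimensional ℝ V]
    (R : ConeRep V) (W : Submodule ℝ V) (S : Set (V →ₗ[ℝ] ℝ)) (h : FanoBase R W S)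
    (hrel : RelDomain R W) : R.Good := by
  classical
  obtain ⟨s, hs, hcov⟩ := hrel
  -- finitely many functionals suffice
  obtain ⟨J, hJS, hJ⟩ : ∃ J : Finset (V →ₗ[ℝ] ℝ), (∀ r ∈ J, r ∈ S) ∧ ∀ r ∈ S, ∃ r' ∈ J,
      (∀ v ∈ s, r' v ≤ r v) ∧ ∀ w ∈ W, r' w = r w := by
    have hnat : ∀ r ∈ S, ∀ v ∈ s, ∃ n : ℕ, r v = n := by
      intro r hr v hv
      obtain ⟨n, hn⟩ := h.integral r hr v (hs v hv).1
      have h0 := h.nonneg r hr v (hs v hv).2
      rw [hn] at h0
      have h0' : 0 ≤ n := by exact_mod_cast h0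
      refine ⟨n.toNat, ?_⟩
      rw [hn]
      have : ((n.toNat : ℤ) : ℝ) = (n : ℝ) := by rw [Int.toNat_of_nonneg h0']
      rw [← this]
      norm_cast
    have hch : ∀ ζ : W →ₗ[ℝ] ℝ, ∃ J : Finset (V →ₗ[ℝ] ℝ),
        (∀ r ∈ J, r ∈ S ∧ ∀ w : W, ζ w = r w) ∧
        ∀ r ∈ S, (∀ w : W, ζ w = r w) → ∃ r' ∈ J, ∀ v ∈ s, r' v ≤ r v := by
      intro ζ
      obtain ⟨J, h1, h2⟩ := dickson {r | r ∈ S ∧ ∀ w : W, ζ w = r w} s
        (fun r hr v hv => hnat r hr.1 v hv)
      exact ⟨J, h1, fun r hr hrz => h2 r ⟨hr, hrz⟩⟩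
    choose Jf hJ1 hJ2 using hch
    refine ⟨h.finite.toFinset.biUnion Jf, ?_, ?_⟩
    · intro r hr
      obtain ⟨ζ, -, hr⟩ := Finset.mem_biUnion.1 hr
      exact (hJ1 ζ r hr).1
    · intro r hr
      obtain ⟨r', hr', hle⟩ := hJ2 (r.domRestrict W) r hr (fun w => rfl)
      refine ⟨r', Finset.mem_biUnion.2 ⟨r.domRestrict W, ?_, hr'⟩, hle, ?_⟩
      · rw [Set.Finite.mem_toFinset]
        exact ⟨r, hr, fun w => rfl⟩
      · intro w hw
        exact ((hJ1 _ r' hr').2 ⟨w, hw⟩).symm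
  -- the relative domain, cut by `S`, is rational polyhedral
  obtain ⟨t, ht, htP⟩ := cuts (ratPoly_add (fun v hv => (hs v hv).1) h.rational) J
    (fun l hl => h.integral l (hJS l hl))
  have hmem : ∀ x, x ∈ cone (t : Set V) ↔ (∃ y ∈ cone (s : Set V), x - y ∈ W) ∧
      ∀ r ∈ S, 0 ≤ r x := by
    intro x
    rw [← htP]
    constructor
    · rintro ⟨⟨y, hy, hxy⟩, hx⟩
      refine ⟨⟨y, hy, hxy⟩, fun r hr => ?_⟩
      obtain ⟨r', hr', hle, heq⟩ := hJ r hr
      have h1 : r' y ≤ r y := by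
        obtain ⟨c, hc, rfl⟩ := mem_cone.1 hy
        rw [map_sum, map_sum]
        refine Finset.sum_le_sum fun v hv => ?_
        rw [map_smul, map_smul, smul_eq_mul, smul_eq_mul]
        exact mul_le_mul_of_nonneg_left (hle v hv) (hc v hv)
      have h2 := heq _ hxy
      rw [map_sub, map_sub] at h2
      have h3 := hx r' hr'
      linarith
    · rintro ⟨h1, h2⟩
      exact ⟨h1, fun l hl => h2 l (hJS l hl)⟩
  have hsE : ∀ y ∈ cone (s : Set V), y ∈ R.E := fun y hy =>
    cone_subset R.cone (fun v hv => (hs v hv).2) hy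
  have htE : ∀ v ∈ t, v ∈ R.L ∧ v ∈ R.E := by
    intro v hv
    obtain ⟨⟨y, hy, hvy⟩, hr⟩ := (hmem v).1 (subset_cone _ (Finset.mem_coe.2 hv))
    exact ⟨ht v hv, h.cut v (ht v hv) ⟨y, hsE y hy, hvy⟩ hr⟩
  have hcov' : ∀ x ∈ R.E, ∃ γ ∈ R.Γ, γ x ∈ cone (t : Set V) := by
    intro x hx
    obtain ⟨γ, hγ, hy⟩ := hcov x hx
    exact ⟨γ, hγ, (hmem _).2 ⟨hy, fun r hr => h.nonneg r hr _ (R.presE γ hγ x hx)⟩⟩
  refine exact_of_weak R.lattice R.cone R.presL R.presE htE
    (fun x hx => hcov' x (interior_subset hx)) ?_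
  intro x hx
  obtain ⟨γ, hγ, hγx⟩ := hcov' x hx
  refine ⟨t.image fun v => (γ⁻¹ : V ≃ₗ[ℝ] V) v, ?_, ?_⟩
  · intro v hv
    obtain ⟨u, hu, rfl⟩ := Finset.mem_image.1 hv
    exact ⟨R.presL _ (R.Γ.inv_mem hγ) _ (htE u hu).1, R.presE _ (R.Γ.inv_mem hγ) _ (htE u hu).2⟩
  · have h1 : x ∈ (γ⁻¹ : V ≃ₗ[ℝ] V) '' cone (t : Set V) := ⟨γ x, hγx, γ.symm_apply_apply x⟩
    rw [image_cone_equiv] at h1
    rw [Finset.coe_image]
    exact h1

end Pool.Agent.W539.Cone
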