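import Pool.Agent.W539.Cone.Defs

set_option autoImplicit false

namespace Pool.Agent.W539.Cone

variable {V : Type*} [NormedAddCommGroup V] [NormedSpace ℝ V]

lemma mem_cone {s : Finset V} {x : V} :
    x ∈ cone (s : Set V) ↔ ∃ t : V → ℝ, (∀ v ∈ s, 0 ≤ t v) ∧ ∑ v ∈ s, t v • v = x := by
  unfold cone
  rw [SetLike.mem_coe, Submodule.mem_span_finset]
  constructor
  · rintro ⟨f, -, hf⟩
    exact ⟨fun v => (f v : ℝ), fun v _ => (f v).2, by simpa [NNReal.smul_def] using hf⟩
  · rintro ⟨t, ht, hx⟩
    classical
    refine ⟨fun v => if v ∈ s then Real.toNNReal (t v) else 0, ?_, ?_⟩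
    · intro v hv
      by_contra h
      have h' : v ∉ s := fun h2 => h (by exact_mod_cast h2)
      simp [h'] at hv
    · rw [← hx]
      refine Finset.sum_congr rfl fun v hv => ?_
      simp only [if_pos hv, NNReal.smul_def, Real.coe_toNNReal _ (ht v hv)]

lemma subset_cone (s : Set V) : s ⊆ cone s := Submodule.subset_span

lemma cone_add {s : Set V} {x y : V} (hx : x ∈ cone s) (hy : y ∈ cone s) : x + y ∈ cone s :=
  (Submodule.span NNReal s).add_mem hx hy

lemma cone_smul {s : Set V} {x : V} {c : ℝ} (hc : 0 ≤ c) (hx : x ∈ cone s) : c • x ∈ cone s :=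
  (Submodule.span NNReal s).smul_mem (⟨c, hc⟩ : NNReal) hx

lemma cone_sum {s : Set V} {ι : Type*} {J : Finset ι} {f : ι → V} (h : ∀ i ∈ J, f i ∈ cone s) :
    ∑ i ∈ J, f i ∈ cone s :=
  (Submodule.span NNReal s).sum_mem h

lemma cone_zero (s : Set V) : (0 : V) ∈ cone s := (Submodule.span NNReal s).zero_mem

lemma cone_subset {s : Set V} {E : Set V} (hE : IsCone E) (h : s ⊆ E) : cone s ⊆ E := by
  intro x hx
  refine Submodule.span_induction (p := fun x _ => x ∈ E) (fun x hx => h hx) hE.zero_mem
    (fun x y _ _ hx hy => hE.add_mem x hx y hy) (fun a x _ hx => ?_) hx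
  exact hE.smul_mem (a : ℝ) a.2 x hx

lemma cone_mono' {s t : Set V} (h : s ⊆ cone t) : cone s ⊆ cone t :=
  Submodule.span_le.2 h

lemma cone_mono {s t : Set V} (h : s ⊆ t) : cone s ⊆ cone t :=
  Submodule.span_mono h

lemma IsCone.sum_mem {E : Set V} (hE : IsCone E) {ι : Type*} (J : Finset ι) (f : ι → V)
    (h : ∀ i ∈ J, f i ∈ E) : ∑ i ∈ J, f i ∈ E := by
  classical
  induction J using Finset.induction_on with
  | empty => simpa using hE.zero_mem
  | insert a J ha ih =>
    rw [Finset.sum_insert ha]
    exact hE.add_mem _ (h a (Finset.mem_insert_self a J)) _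
      (ih fun i hi => h i (Finset.mem_insert_of_mem hi))

lemma image_cone {W : Type*} [NormedAddCommGroup W] [NormedSpace ℝ W] (f : V →ₗ[ℝ] W) (s : Set V) :
    f '' cone s = cone (f '' s) := by
  unfold cone
  have := Submodule.map_span (f.restrictScalars NNReal) s
  have h2 := congrArg (fun (N : Submodule NNReal W) => (N : Set W)) this
  simpa using h2

lemma image_cone_equiv (f : V ≃ₗ[ℝ] V) (s : Set V) : f '' cone s = cone (f '' s) :=
  image_cone (f : V →ₗ[ℝ] V) s

/-- cutting a finitely generated cone by a half-space -/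
lemma cut {L : AddSubgroup V} {s : Finset V} (hs : ∀ v ∈ s, v ∈ L) (l : V →ₗ[ℝ] ℝ)
    (hl : ∀ x ∈ L, ∃ z : ℤ, l x = z) :
    RatPoly L {x | x ∈ cone (s : Set V) ∧ 0 ≤ l x} := by
  classical
  let s0 := s.filter fun v => 0 ≤ l v
  let s1 := ((s.filter fun v => 0 < l v) ×ˢ (s.filter fun v => l v < 0)).image
    fun p => l p.1 • p.2 - l p.2 • p.1
  refine ⟨s0 ∪ s1, ?_, ?_⟩
  · intro v hv
    rcases Finset.mem_union.1 hv with h | h
    · exact hs v (Finset.mem_filter.1 h).1
    · obtain ⟨⟨p, q⟩, hpq, rfl⟩ := Finset.mem_image.1 h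
      obtain ⟨hp, hq⟩ := Finset.mem_product.1 hpq
      have hp' := hs p (Finset.mem_filter.1 hp).1
      have hq' := hs q (Finset.mem_filter.1 hq).1
      obtain ⟨a, ha⟩ := hl p hp'
      obtain ⟨b, hb⟩ := hl q hq'
      simp only [ha, hb]
      refine L.sub_mem ?_ ?_
      · rw [Int.cast_smul_eq_zsmul]
        exact L.zsmul_mem hq' a
      · rw [Int.cast_smul_eq_zsmul]
        exact L.zsmul_mem hp' b
  · ext x
    constructor
    · rintro ⟨hx, hlx⟩
      obtain ⟨t, ht, rfl⟩ := mem_cone.1 hx
      set sp := s.filter fun v => 0 < l v with hsp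
      set sz := s.filter fun v => l v = 0 with hsz
      set sn := s.filter fun v => l v < 0 with hsn
      set A := ∑ v ∈ sp, t v * l v with hA
      set B := ∑ v ∈ sn, t v * (-l v) with hB
      have hsplit : ∀ f : V → V, ∑ v ∈ s, f v = ∑ v ∈ sp, f v + ∑ v ∈ sz, f v + ∑ v ∈ sn, f v := by
        intro f
        have h1 := Finset.sum_filter_add_sum_filter_not s (fun v => 0 < l v) f
        have h2 := Finset.sum_filter_add_sum_filter_not (s.filter fun v => ¬ 0 < l v)
          (fun v => l v = 0) f
        rw [← h1, ← h2, add_assoc]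
        congr 2
        · rw [hsz]
          congr 1
          ext v
          simp only [Finset.mem_filter]
          constructor
          · rintro ⟨⟨h1, h2⟩, h3⟩; exact ⟨h1, h3⟩
          · rintro ⟨h1, h3⟩; exact ⟨⟨h1, by rw [h3]; simp⟩, h3⟩
        · rw [hsn]
          congr 1
          ext v
          simp only [Finset.mem_filter]
          constructor
          · rintro ⟨⟨h1, h2⟩, h3⟩; exact ⟨h1, lt_of_le_of_ne (not_lt.1 h2) h3⟩
          · rintro ⟨h1, h3⟩; exact ⟨⟨h1, not_lt.2 h3.le⟩, h3.ne⟩
      have hsplitR : ∀ f : V → ℝ, ∑ v ∈ s, f v = ∑ v ∈ sp, f v + ∑ v ∈ sz, f v + ∑ v ∈ sn, f v := by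
        intro f
        have h1 := Finset.sum_filter_add_sum_filter_not s (fun v => 0 < l v) f
        have h2 := Finset.sum_filter_add_sum_filter_not (s.filter fun v => ¬ 0 < l v)
          (fun v => l v = 0) f
        rw [← h1, ← h2, add_assoc]
        congr 2
        · rw [hsz]
          congr 1
          ext v
          simp only [Finset.mem_filter]
          constructor
          · rintro ⟨⟨h1, h2⟩, h3⟩; exact ⟨h1, h3⟩
          · rintro ⟨h1, h3⟩; exact ⟨⟨h1, by rw [h3]; simp⟩, h3⟩
        · rw [hsn]
          congr 1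
          ext v
          simp only [Finset.mem_filter]
          constructor
          · rintro ⟨⟨h1, h2⟩, h3⟩; exact ⟨h1, lt_of_le_of_ne (not_lt.1 h2) h3⟩
          · rintro ⟨h1, h3⟩; exact ⟨⟨h1, not_lt.2 h3.le⟩, h3.ne⟩
      have hAB : B ≤ A := by
        rw [map_sum, hsplitR] at hlx
        have hz : ∑ v ∈ sz, l (t v • v) = 0 := by
          refine Finset.sum_eq_zero fun v hv => ?_
          rw [map_smul, (Finset.mem_filter.1 hv).2, smul_zero]
        have e1 : ∑ v ∈ sp, l (t v • v) = A := by
          rw [hA]; refine Finset.sum_congr rfl fun v _ => ?_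
          rw [map_smul, smul_eq_mul]
        have e2 : ∑ v ∈ sn, l (t v • v) = -B := by
          rw [hB, ← Finset.sum_neg_distrib]; refine Finset.sum_congr rfl fun v _ => ?_
          rw [map_smul, smul_eq_mul]; ring
        rw [hz, e1, e2] at hlx
        linarith
      have hB0 : 0 ≤ B := by
        rw [hB]
        refine Finset.sum_nonneg fun v hv => ?_
        have := Finset.mem_filter.1 hv
        exact mul_nonneg (ht v this.1) (by linarith [this.2])
      rcases eq_or_lt_of_le hB0 with hB' | hB'
      · -- all negative coefficients vanish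
        have hz : ∀ v ∈ sn, t v = 0 := by
          intro v hv
          have h1 : ∀ v ∈ sn, 0 ≤ t v * (-l v) := fun v hv =>
            mul_nonneg (ht v (Finset.mem_filter.1 hv).1) (by linarith [(Finset.mem_filter.1 hv).2])
          have h2 := (Finset.sum_eq_zero_iff_of_nonneg h1).1 hB'.symm v hv
          rcases mul_eq_zero.1 h2 with h3 | h3
          · exact h3
          · exact absurd h3 (by linarith [(Finset.mem_filter.1 hv).2])
        rw [hsplit]
        have h3 : ∑ v ∈ sn, t v • v = 0 := Finset.sum_eq_zero fun v hv => by rw [hz v hv, zero_smul]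
        rw [h3, add_zero]
        refine cone_add (cone_sum fun v hv => ?_) (cone_sum fun v hv => ?_)
        · have := Finset.mem_filter.1 hv
          refine cone_smul (ht v this.1) (subset_cone _ ?_)
          exact_mod_cast Finset.mem_union_left _ (Finset.mem_filter.2 ⟨this.1, this.2.le⟩)
        · have := Finset.mem_filter.1 hv
          refine cone_smul (ht v this.1) (subset_cone _ ?_)
          exact_mod_cast Finset.mem_union_left _ (Finset.mem_filter.2 ⟨this.1, this.2.ge⟩)
      · have hA' : 0 < A := lt_of_lt_of_le hB' hAB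
        have key : ∑ v ∈ s, t v • v = ∑ v ∈ sp, ((1 - B / A) * t v) • v + ∑ v ∈ sz, t v • v +
            ∑ pq ∈ sp ×ˢ sn, (t pq.1 * t pq.2 / A) • (l pq.1 • pq.2 - l pq.2 • pq.1) := by
          rw [hsplit, Finset.sum_product]
          have e1 : ∀ p ∈ sp, ∑ q ∈ sn, (t p * t q / A) • (l p • q - l q • p) =
              (t p * l p / A) • (∑ q ∈ sn, t q • q) + (B / A * t p) • p := by
            intro p hp
            rw [Finset.smul_sum]
            have : (B / A * t p) • p = ∑ q ∈ sn, ((t q * (-l q)) / A * t p) • p := by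
              rw [← Finset.sum_smul, ← Finset.sum_mul, ← Finset.sum_div]
            rw [this, ← Finset.sum_add_distrib]
            refine Finset.sum_congr rfl fun q hq => ?_
            module
          have e1' := Finset.sum_congr (s₁ := sp) rfl e1
          simp only at e1' ⊢
          rw [e1', Finset.sum_add_distrib, ← Finset.sum_smul]
          have e2 : ∑ p ∈ sp, t p * l p / A = 1 := by
            rw [← Finset.sum_div, ← hA, div_self hA'.ne']
          rw [e2, one_smul]
          have e3 : ∑ v ∈ sp, ((1 - B / A) * t v) • v + ∑ p ∈ sp, (B / A * t p) • p =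
              ∑ v ∈ sp, t v • v := by
            rw [← Finset.sum_add_distrib]
            refine Finset.sum_congr rfl fun v _ => ?_
            module
          rw [← e3]
          abel
        rw [key]
        refine cone_add (cone_add (cone_sum fun v hv => ?_) (cone_sum fun v hv => ?_))
          (cone_sum fun pq hpq => ?_)
        · have := Finset.mem_filter.1 hv
          refine cone_smul (mul_nonneg ?_ (ht v this.1)) (subset_cone _ ?_)
          · rw [sub_nonneg, div_le_one hA']; exact hAB
          · exact_mod_cast Finset.mem_union_left _ (Finset.mem_filter.2 ⟨this.1, this.2.le⟩)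
        · have := Finset.mem_filter.1 hv
          refine cone_smul (ht v this.1) (subset_cone _ ?_)
          exact_mod_cast Finset.mem_union_left _ (Finset.mem_filter.2 ⟨this.1, this.2.ge⟩)
        · obtain ⟨hp, hq⟩ := Finset.mem_product.1 hpq
          have hp' := Finset.mem_filter.1 hp
          have hq' := Finset.mem_filter.1 hq
          refine cone_smul (div_nonneg (mul_nonneg (ht _ hp'.1) (ht _ hq'.1)) hA'.le)
            (subset_cone _ ?_)
          exact_mod_cast Finset.mem_union_right _ (Finset.mem_image.2 ⟨pq, hpq, rfl⟩)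
    · intro hx
      have h1 : ∀ v ∈ s0 ∪ s1, v ∈ cone (s : Set V) ∧ 0 ≤ l v := by
        intro v hv
        rcases Finset.mem_union.1 hv with h | h
        · exact ⟨subset_cone _ (by exact_mod_cast (Finset.mem_filter.1 h).1),
            (Finset.mem_filter.1 h).2⟩
        · obtain ⟨⟨p, q⟩, hpq, rfl⟩ := Finset.mem_image.1 h
          obtain ⟨hp, hq⟩ := Finset.mem_product.1 hpq
          have hp' := Finset.mem_filter.1 hp
          have hq' := Finset.mem_filter.1 hq
          simp only at hp' hq' ⊢
          constructor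
          · have e : l p • q - l q • p = l p • q + (-l q) • p := by module
            rw [e]
            exact cone_add (cone_smul hp'.2.le (subset_cone _ (by exact_mod_cast hq'.1)))
              (cone_smul (by linarith [hq'.2]) (subset_cone _ (by exact_mod_cast hp'.1)))
          · rw [map_sub, map_smul, map_smul, smul_eq_mul, smul_eq_mul]
            linarith [mul_comm (l p) (l q)]
      obtain ⟨t, ht, rfl⟩ := mem_cone.1 hx
      refine ⟨cone_sum fun v hv => cone_smul (ht v hv) (h1 v hv).1, ?_⟩
      rw [map_sum]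
      exact Finset.sum_nonneg fun v hv => by
        rw [map_smul, smul_eq_mul]; exact mul_nonneg (ht v hv) (h1 v hv).2

/-- cutting by finitely many half-spaces -/
lemma cuts {L : AddSubgroup V} {P : Set V} (hP : RatPoly L P) (J : Finset (V →ₗ[ℝ] ℝ))
    (hJ : ∀ l ∈ J, ∀ x ∈ L, ∃ z : ℤ, l x = z) :
    RatPoly L {x | x ∈ P ∧ ∀ l ∈ J, 0 ≤ l x} := by
  classical
  induction J using Finset.induction_on with
  | empty => simpa using hP
  | insert a J ha ih =>
    obtain ⟨s, hs, h⟩ := ih fun l hl => hJ l (Finset.mem_insert_of_mem hl)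
    have := cut hs a (hJ a (Finset.mem_insert_self a J))
    have e : {x | x ∈ P ∧ ∀ l ∈ insert a J, 0 ≤ l x} = {x | x ∈ cone (s : Set V) ∧ 0 ≤ a x} := by
      ext x
      rw [← h]
      simp only [Set.mem_ofPred_eq, Finset.mem_insert, forall_eq_or_imp]
      tauto
    rw [e]
    exact this

end Pool.Agent.W539.Cone
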