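import Pool.Agent.W539.Cone.Model

set_option autoImplicit false

namespace Pool.Agent.W539.Cone

/-- A chamber structure on the cone of `R`: a family of convex cones in `E`, permuted by `Γ`, such
that every rational polyhedral cone `P` in `E` meets every chamber in a rational polyhedral cone, and
only finitely many chambers in interior points of `E`. -/
structure IsFan {V : Type} [NormedAddCommGroup V] [NormedSpace ℝ V] (R : ConeRep V)
    (𝒞 : Set (Set V)) : Prop where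
  sub : ∀ C ∈ 𝒞, C ⊆ R.E
  zero : ∀ C ∈ 𝒞, (0 : V) ∈ C
  add : ∀ C ∈ 𝒞, ∀ x ∈ C, ∀ y ∈ C, x + y ∈ C
  smul : ∀ C ∈ 𝒞, ∀ c : ℝ, 0 ≤ c → ∀ x ∈ C, c • x ∈ C
  inv : ∀ γ ∈ R.Γ, ∀ C ∈ 𝒞, γ '' C ∈ 𝒞
  rat : ∀ C ∈ 𝒞, ∀ P, RatPoly R.L P → P ⊆ R.E → RatPoly R.L (C ∩ P)
  fin : ∀ P, RatPoly R.L P → P ⊆ R.E → {C | C ∈ 𝒞 ∧ (C ∩ P ∩ interior R.E).Nonempty}.Finite

/-- The chambers induced on a subspace `W`: the `C ∩ W` with nonempty interior in `W`. -/
def induced {V : Type} [NormedAddCommGroup V] [NormedSpace ℝ V] (𝒞 : Set (Set V))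
    (W : Submodule ℝ V) : Set (Set W) :=
  {D | (∃ C ∈ 𝒞, D = coneIn C W) ∧ (interior D).Nonempty}

/-- The stabiliser of the set `D` in `Γ`. -/
def stabIn {W : Type} [NormedAddCommGroup W] [NormedSpace ℝ W] (Γ : Subgroup (W ≃ₗ[ℝ] W))
    (D : Set W) : Subgroup (W ≃ₗ[ℝ] W) where
  carrier := {γ | γ ∈ Γ ∧ γ '' D = D}
  mul_mem' := fun {a b} ha hb => ⟨Γ.mul_mem ha.1 hb.1, by
    have : (⇑(a * b) : W → W) = a ∘ b := rfl
    rw [this, Set.image_comp, hb.2, ha.2]⟩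
  one_mem' := ⟨Γ.one_mem, by
    have : (⇑(1 : W ≃ₗ[ℝ] W) : W → W) = id := rfl
    rw [this, Set.image_id]⟩
  inv_mem' := fun {a} ha => ⟨Γ.inv_mem ha.1, by
    have h : (a⁻¹ : W ≃ₗ[ℝ] W) '' (a '' D) = D := by
      rw [← Set.image_comp]
      have : (⇑(a⁻¹ : W ≃ₗ[ℝ] W) ∘ ⇑a : W → W) = id := by
        funext x
        exact a.symm_apply_apply x
      rw [this, Set.image_id]
    rw [ha.2] at h
    exact h⟩

lemma image_inv {W : Type} [NormedAddCommGroup W] [NormedSpace ℝ W] (a : W ≃ₗ[ℝ] W) (D : Set W) :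
    (a⁻¹ : W ≃ₗ[ℝ] W) '' (a '' D) = D := by
  rw [← Set.image_comp]
  have : (⇑(a⁻¹ : W ≃ₗ[ℝ] W) ∘ ⇑a : W → W) = id := by
    funext x
    exact a.symm_apply_apply x
  rw [this, Set.image_id]

lemma image_mul {W : Type} [NormedAddCommGroup W] [NormedSpace ℝ W] (a b : W ≃ₗ[ℝ] W) (D : Set W) :
    (a * b : W ≃ₗ[ℝ] W) '' D = a '' (b '' D) := by
  have : (⇑(a * b) : W → W) = a ∘ b := rfl
  rw [this, Set.image_comp]

/-- `Γ` permutes the sets in `𝒟`. -/
def Permutes {W : Type} [NormedAddCommGroup W] [NormedSpace ℝ W] (Γ : Subgroup (W ≃ₗ[ℝ] W))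
    (𝒟 : Set (Set W)) : Prop := ∀ γ ∈ Γ, ∀ D ∈ 𝒟, γ '' D ∈ 𝒟

/-- `𝒟` consists of finitely many orbits of `Γ`. -/
def FinOrbits {W : Type} [NormedAddCommGroup W] [NormedSpace ℝ W] (Γ : Subgroup (W ≃ₗ[ℝ] W))
    (𝒟 : Set (Set W)) : Prop :=
  ∃ F : Set (Set W), F.Finite ∧ F ⊆ 𝒟 ∧ ∀ D ∈ 𝒟, ∃ γ ∈ Γ, ∃ D₀ ∈ F, γ '' D₀ = D

/-- The stabiliser of `D` in the group of `Q` acts on `D` with a rational polyhedral fundamental
domain. -/
def ConeRep.GoodOn {W : Type} [NormedAddCommGroup W] [NormedSpace ℝ W] (Q : ConeRep W)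
    (D : Set W) : Prop := HasFundDomain Q.L D (stabIn Q.Γ D)

/-- Chambers of a quotient. -/
theorem chambers_quot {V : Type} [NormedAddCommGroup V] [NormedSpace ℝ V] [FiniteDimensional ℝ V]
    (R : ConeRep V) (hR : R.Good) (𝒞 : Set (Set V)) (h𝒞 : IsFan R 𝒞)
    (G : Subgroup (V ≃ₗ[ℝ] V)) (Q : ConeRep (fixed G)) (hQ : IsQuot R G Q)
    (hpres : Permutes Q.Γ (induced 𝒞 (fixed G))) :
    Q.Good ∧ FinOrbits Q.Γ (induced 𝒞 (fixed G)) ∧ ∀ D ∈ induced 𝒞 (fixed G), Q.GoodOn D := by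
  classical
  obtain ⟨hfin, hG, hL, hE, C₀, -, hC, hres⟩ := hQ
  obtain ⟨s₀, hs₀, hcov₀⟩ := weak_of_dom hR
  have hQL : Q.L = latIn R.L (fixed G) := by
    ext x; rw [hL]; rfl
  have hQE : Q.E = coneIn R.E (fixed G) := by
    ext x; rw [hE]; rfl
  have hGL : Preserves G (R.L : Set V) := fun g hg => R.presL g (hG hg)
  have hGE : Preserves G R.E := fun g hg => R.presE g (hG hg)
  have hQgood : HasFundDomain Q.L Q.E Q.Γ := by
    have hQΓL := Q.presL
    have hQΓE := Q.presE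
    rw [hQL] at hQΓL
    rw [hQE] at hQΓE
    have := quotient_domain R.lattice R.cone R.presL R.presE hs₀ hcov₀ hGL hGE
      (fun g hg γ hγ => R.Γ.mul_mem (R.Γ.mul_mem (hG hg) hγ) (R.Γ.inv_mem (hG hg))) hC hQΓL hQΓE
      (fun γ hγ _ => hres γ hγ)
    rw [hQL, hQE]
    exact this
  obtain ⟨sW, hsW, hcovW⟩ := weak_of_dom hQgood
  -- the rational polyhedral cone in `V`
  set P : Set V := cone ((sW.image (Subtype.val : fixed G → V) : Finset V) : Set V) with hPdef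
  have hsub : ((fixed G).subtype : fixed G →ₗ[ℝ] V) '' cone (sW : Set (fixed G)) = P := by
    rw [image_cone, hPdef]
    congr 1
    ext v
    simp
  have hPr : RatPoly R.L P := by
    refine ⟨_, ?_, rfl⟩
    intro v hv
    obtain ⟨w, hw, rfl⟩ := Finset.mem_image.1 hv
    exact (hL w).1 (hsW w hw).1
  have hPE : P ⊆ R.E := by
    refine cone_subset R.cone ?_
    intro v hv
    obtain ⟨w, hw, rfl⟩ := Finset.mem_image.1 (Finset.mem_coe.1 hv)
    exact (hE w).1 (hsW w hw).2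
  have hmemP : ∀ x : fixed G, x ∈ cone (sW : Set (fixed G)) ↔ (x : V) ∈ P := by
    intro x
    rw [← hsub]
    constructor
    · intro hx; exact ⟨x, hx, rfl⟩
    · rintro ⟨y, hy, hxy⟩
      have : y = x := Subtype.ext hxy
      rwa [this] at hy
  -- rational polyhedrality in `W` of the intersection of a chamber with the domain
  have hratW : ∀ D ∈ induced 𝒞 (fixed G), ∃ t : Finset (fixed G), (∀ v ∈ t, v ∈ Q.L ∧ v ∈ D) ∧
      ∀ x : fixed G, x ∈ D → x ∈ cone (sW : Set (fixed G)) → x ∈ cone (t : Set (fixed G)) := by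
    rintro D ⟨⟨C, hC𝒞, rfl⟩, -⟩
    obtain ⟨t, ht, hteq⟩ := h𝒞.rat C hC𝒞 P hPr hPE
    have htW : ∀ v ∈ t, v ∈ fixed G := by
      intro v hv
      have h1 : v ∈ C ∩ P := by rw [hteq]; exact subset_cone _ hv
      obtain ⟨y, -, hy⟩ := (hsub ▸ h1.2 : v ∈ ((fixed G).subtype : fixed G →ₗ[ℝ] V) ''
        cone (sW : Set (fixed G)))
      rw [← hy]; exact y.2
    refine ⟨t.attach.image fun v => ⟨v.1, htW v.1 v.2⟩, ?_, ?_⟩
    · intro v hv
      obtain ⟨w, -, rfl⟩ := Finset.mem_image.1 hv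
      refine ⟨(hL _).2 (ht w.1 w.2), ?_⟩
      have h1 : (w.1 : V) ∈ C ∩ P := by rw [hteq]; exact subset_cone _ w.2
      exact h1.1
    · intro x hxC hxP
      have h1 : (x : V) ∈ cone (t : Set V) := by
        rw [← hteq]
        exact ⟨hxC, (hmemP x).1 hxP⟩
      have h2 : ((fixed G).subtype : fixed G →ₗ[ℝ] V) ''
          cone ((t.attach.image fun v => (⟨v.1, htW v.1 v.2⟩ : fixed G) : Finset (fixed G)) :
            Set (fixed G)) = cone (t : Set V) := by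
        rw [image_cone]
        congr 1
        ext v
        constructor
        · rintro ⟨w, hw, rfl⟩
          obtain ⟨b, -, rfl⟩ := Finset.mem_image.1 (Finset.mem_coe.1 hw)
          exact b.2
        · intro hv
          exact ⟨⟨v, htW v hv⟩, Finset.mem_coe.2 (Finset.mem_image.2
            ⟨⟨v, hv⟩, Finset.mem_attach _ _, rfl⟩), rfl⟩
      rw [← h2] at h1
      obtain ⟨y, hy, hxy⟩ := h1
      have : y = x := Subtype.ext hxy
      rwa [this] at hy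
  -- the finitely many chambers meeting the domain
  have hfinP := h𝒞.fin P hPr hPE
  set F : Set (Set (fixed G)) := {D | D ∈ induced 𝒞 (fixed G) ∧
    ∃ C ∈ {C | C ∈ 𝒞 ∧ (C ∩ P ∩ interior R.E).Nonempty}, D = coneIn C (fixed G)} with hFdef
  have hFfin : F.Finite := by
    refine (hfinP.image fun C => coneIn C (fixed G)).subset ?_
    rintro D ⟨-, C, hC, rfl⟩
    exact ⟨C, hC, rfl⟩
  have hDE : ∀ D ∈ induced 𝒞 (fixed G), D ⊆ Q.E := by
    rintro D ⟨⟨C, hC, rfl⟩, -⟩ x hx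
    rw [hE]
    exact h𝒞.sub C hC hx
  have hmove : ∀ D ∈ induced 𝒞 (fixed G), ∀ x ∈ interior D, ∀ γ ∈ Q.Γ,
      γ x ∈ cone (sW : Set (fixed G)) → γ '' D ∈ F := by
    intro D hD x hx γ hγ hγx
    have h1 := hpres γ hγ D hD
    obtain ⟨⟨C, hC, hCD⟩, -⟩ := id h1
    refine ⟨h1, C, ⟨hC, (γ x : V), ⟨?_, (hmemP _).1 hγx⟩, ?_⟩, hCD⟩
    · have h2 : γ x ∈ γ '' D := ⟨x, interior_subset hx, rfl⟩
      rw [hCD] at h2
      exact h2
    · have h3 : x ∈ interior Q.E := interior_mono (hDE D hD) hx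
      have h4 := interior_map Q.presE hγ h3
      rw [hQE] at h4
      exact interior_fixed R.cone hGE h4
  refine ⟨hQgood, ?_, ?_⟩
  · refine ⟨F, hFfin, fun D hD => hD.1, ?_⟩
    intro D hD
    obtain ⟨x, hx⟩ := hD.2
    obtain ⟨γ, hγ, hγx⟩ := hcovW x (hDE D hD (interior_subset hx))
    exact ⟨γ⁻¹, Q.Γ.inv_mem hγ, γ '' D, hmove D hD x hx γ hγ hγx, image_inv γ D⟩
  · intro D hD
    obtain ⟨⟨C, hC𝒞, hCD⟩, hDint⟩ := id hD
    have hDcone : IsCone D := by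
      refine ⟨?_, ?_, ?_, hDint, ?_⟩
      · rw [hCD]; exact h𝒞.zero C hC𝒞
      · intro x hx y hy
        rw [hCD] at hx hy ⊢
        exact h𝒞.add C hC𝒞 _ hx _ hy
      · intro c hc x hx
        rw [hCD] at hx ⊢
        exact h𝒞.smul C hC𝒞 c hc _ hx
      · intro x hx hx'
        have := closure_mono (hDE D hD)
        exact Q.cone.pointed x (this hx) (this hx')
    have hSL : Preserves (stabIn Q.Γ D) (Q.L : Set (fixed G)) :=
      fun γ hγ => Q.presL γ hγ.1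
    have hSD : Preserves (stabIn Q.Γ D) D := fun γ hγ x hx => by
      have : γ x ∈ γ '' D := ⟨x, hx, rfl⟩
      rwa [hγ.2] at this
    -- representatives for the orbit of `D` in `F`
    let good : Set (Set (fixed G)) := {D' | D' ∈ F ∧ ∃ γ ∈ Q.Γ, γ '' D = D'}
    have hgood : good.Finite := hFfin.subset fun D' h => h.1
    choose! g hg hgD using fun (D' : Set (fixed G)) (h : D' ∈ good) => h.2
    choose! t ht htc using hratW
    let sD : Finset (fixed G) := hgood.toFinset.biUnion fun D' =>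
      (t D').image fun v => ((g D')⁻¹ : fixed G ≃ₗ[ℝ] fixed G) v
    have hsD : ∀ v ∈ sD, v ∈ Q.L ∧ v ∈ D := by
      intro v hv
      obtain ⟨D', hD', hv⟩ := Finset.mem_biUnion.1 hv
      rw [Set.Finite.mem_toFinset] at hD'
      obtain ⟨w, hw, rfl⟩ := Finset.mem_image.1 hv
      have h1 := ht D' hD'.1.1 w hw
      refine ⟨Q.presL _ (Q.Γ.inv_mem (hg D' hD')) _ h1.1, ?_⟩
      have h2 : ((g D')⁻¹ : fixed G ≃ₗ[ℝ] fixed G) w ∈
          ((g D')⁻¹ : fixed G ≃ₗ[ℝ] fixed G) '' D' := ⟨w, h1.2, rfl⟩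
      have h3 : ((g D')⁻¹ : fixed G ≃ₗ[ℝ] fixed G) '' D' = D := by
        have h5 := image_inv (g D') D
        rwa [hgD D' hD'] at h5
      rwa [h3] at h2
    refine exact_of_weak Q.lattice hDcone hSL hSD hsD ?_ ?_
    · intro x hx
      obtain ⟨γ, hγ, hγx⟩ := hcovW x (hDE D hD (interior_subset hx))
      have hF' := hmove D hD x hx γ hγ hγx
      have hgd : γ '' D ∈ good := ⟨hF', γ, hγ, rfl⟩
      refine ⟨(g (γ '' D))⁻¹ * γ, ⟨Q.Γ.mul_mem (Q.Γ.inv_mem (hg _ hgd)) hγ, ?_⟩, ?_⟩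
      · rw [image_mul]
        have h5 := image_inv (g (γ '' D)) D
        rwa [hgD _ hgd] at h5
      · have h1 : γ x ∈ cone (t (γ '' D) : Set (fixed G)) :=
          htc _ hF'.1 _ ⟨x, interior_subset hx, rfl⟩ hγx
        have h2 : ((g (γ '' D))⁻¹ * γ) x ∈
            ((g (γ '' D))⁻¹ : fixed G ≃ₗ[ℝ] fixed G) '' cone (t (γ '' D) : Set (fixed G)) :=
          ⟨γ x, h1, rfl⟩
        rw [image_cone_equiv] at h2
        refine cone_mono ?_ h2
        rintro _ ⟨v, hv, rfl⟩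
        exact Finset.mem_coe.2 (Finset.mem_biUnion.2 ⟨γ '' D, (Set.Finite.mem_toFinset _).2 hgd,
          Finset.mem_image.2 ⟨v, hv, rfl⟩⟩)
    · intro x hx
      obtain ⟨γ, hγ, hγx⟩ := hcovW x (hDE D hD hx)
      have hD' := hpres γ hγ D hD
      have h1 : γ x ∈ cone (t (γ '' D) : Set (fixed G)) := htc _ hD' _ ⟨x, hx, rfl⟩ hγx
      refine ⟨(t (γ '' D)).image fun v => (γ⁻¹ : fixed G ≃ₗ[ℝ] fixed G) v, ?_, ?_⟩
      · intro v hv
        obtain ⟨w, hw, rfl⟩ := Finset.mem_image.1 hv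
        have h2 := ht _ hD' w hw
        refine ⟨Q.presL _ (Q.Γ.inv_mem hγ) _ h2.1, ?_⟩
        have h3 : (γ⁻¹ : fixed G ≃ₗ[ℝ] fixed G) w ∈
            (γ⁻¹ : fixed G ≃ₗ[ℝ] fixed G) '' (γ '' D) := ⟨w, h2.2, rfl⟩
        rwa [image_inv] at h3
      · have h4 : x ∈ (γ⁻¹ : fixed G ≃ₗ[ℝ] fixed G) '' cone (t (γ '' D) : Set (fixed G)) :=
          ⟨γ x, h1, γ.symm_apply_apply x⟩
        rw [image_cone_equiv] at h4
        rw [Finset.coe_image]
        exact h4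

end Pool.Agent.W539.Cone
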