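import Mathlib

/-! # Cones with a lattice: fundamental domains

Definitions for the convex geometry of the Morrison-Kawamata cone conjecture. -/

set_option autoImplicit false

namespace Pool.Agent.W539.Cone

variable {V : Type*} [NormedAddCommGroup V] [NormedSpace ℝ V]

/-- `L` is a lattice in `V`: a subgroup which spans `V` over `ℝ` and has only finitely many
elements in every ball. -/
structure IsLattice (L : AddSubgroup V) : Prop where
  span_top : Submodule.span ℝ (L : Set V) = ⊤
  finite : ∀ r : ℝ, {x : V | x ∈ L ∧ ‖x‖ ≤ r}.Finite

/-- `E` is a convex cone (not necessarily closed) with nonempty interior whose closure contains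
no line. -/
structure IsCone (E : Set V) : Prop where
  zero_mem : (0 : V) ∈ E
  add_mem : ∀ x ∈ E, ∀ y ∈ E, x + y ∈ E
  smul_mem : ∀ c : ℝ, 0 ≤ c → ∀ x ∈ E, c • x ∈ E
  interior_nonempty : (interior E).Nonempty
  pointed : ∀ x, x ∈ closure E → -x ∈ closure E → x = 0

/-- The cone of all linear combinations with nonnegative real coefficients of the elements of
`s`. -/
def cone (s : Set V) : Set V := (Submodule.span NNReal s : Set V)

/-- Rational polyhedral cones: cones spanned by finitely many elements of `L`. -/
def RatPoly (L : AddSubgroup V) (P : Set V) : Prop :=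
  ∃ s : Finset V, (∀ v ∈ s, v ∈ L) ∧ P = cone (s : Set V)

/-- All elements of the group `Γ` of linear automorphisms of `V` map `A` into `A` (hence onto
`A`, as `Γ` is a group). -/
def Preserves (Γ : Subgroup (V ≃ₗ[ℝ] V)) (A : Set V) : Prop := ∀ γ ∈ Γ, ∀ x ∈ A, γ x ∈ A

/-- The action of `Γ` on the cone `E` has a rational polyhedral fundamental domain `P`: a rational
polyhedral cone whose translates cover exactly `E` and whose interior is disjoint from its
translates under all elements of `Γ` different from the identity. -/
def HasFundDomain (L : AddSubgroup V) (E : Set V) (Γ : Subgroup (V ≃ₗ[ℝ] V)) : Prop :=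
  ∃ P : Set V, RatPoly L P ∧ (⋃ γ ∈ Γ, γ '' P) = E ∧
    ∀ γ ∈ Γ, γ ≠ 1 → Disjoint (interior P) (γ '' interior P)

end Pool.Agent.W539.Cone
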