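import Pool.Agent.W539.Cone.Fin

set_option autoImplicit false

namespace Pool.Agent.W539.Cone

variable {V : Type*} [NormedAddCommGroup V] [NormedSpace ℝ V]

lemma cone_isClosed [FiniteDimensional ℝ V] {E : Set V} (hE : IsCone E) {s : Finset V}
    (hs : ∀ v ∈ s, v ∈ E) : IsClosed (cone (s : Set V)) := by
  classical
  obtain ⟨l, hl⟩ := exists_pos hE
  have hlc : Continuous l := l.continuous_of_finiteDimensional
  rw [← isSeqClosed_iff_isClosed, ← closure_subset_iff_isClosed.trans isSeqClosed_iff_isClosed.symm]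
  intro x hx
  set M := l x + 1
  have hU : IsOpen {y | l y < M} := isOpen_lt hlc continuous_const
  have hxU : x ∈ {y | l y < M} := by simp [M]
  have hx2 : x ∈ closure (cone (s : Set V) ∩ {y | l y < M}) := by
    rw [Set.inter_comm]
    exact hU.inter_closure ⟨hxU, hx⟩
  let f : (s → ℝ) → V := fun a => ∑ v : s, a v • (v : V)
  have hf : Continuous f := by
    refine continuous_finsetSum _ fun v _ => ?_
    exact (continuous_apply v).smul continuous_const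
  have hK : IsCompact (f '' (Set.pi Set.univ fun v : s => Set.Icc 0 (M / l v))) :=
    (isCompact_univ_pi fun v => isCompact_Icc).image hf
  have hsub : cone (s : Set V) ∩ {y | l y < M} ⊆
      f '' (Set.pi Set.univ fun v : s => Set.Icc 0 (M / l v)) := by
    rintro y ⟨hy, hyM⟩
    obtain ⟨t, ht, rfl⟩ := mem_cone.1 hy
    refine ⟨fun v => if (v : V) = 0 then 0 else t v, ?_, ?_⟩
    · intro v _
      by_cases h0 : (v : V) = 0
      · simp [h0]
      · simp only [h0, if_false]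
        refine ⟨ht v v.2, ?_⟩
        have hpos : 0 < l v := hl _ (subset_closure (hs v v.2)) h0
        rw [le_div_iff₀ hpos]
        have h1 : t v * l v ≤ ∑ u ∈ s, t u * l u :=
          Finset.single_le_sum (f := fun u => t u * l u)
            (fun u hu => mul_nonneg (ht u hu) (hl.nonneg (subset_closure (hs u hu)))) v.2
        have h2 : l (∑ u ∈ s, t u • u) = ∑ u ∈ s, t u * l u := by
          rw [map_sum]
          exact Finset.sum_congr rfl fun u _ => by rw [map_smul, smul_eq_mul]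
        have h3 : l (∑ u ∈ s, t u • u) < M := hyM
        linarith
    · show ∑ v : s, (if (v : V) = 0 then 0 else t v) • (v : V) = _
      rw [Finset.sum_coe_sort s (fun v => (if v = 0 then 0 else t v) • v)]
      refine Finset.sum_congr rfl fun v _ => ?_
      by_cases h0 : v = 0
      · simp [h0]
      · simp [h0]
  have hx3 := closure_minimal hsub hK.isClosed hx2
  obtain ⟨a, ha, rfl⟩ := hx3
  refine cone_sum fun v _ => cone_smul (ha v (Set.mem_univ v)).1 (subset_cone _ v.2)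

lemma eq_of_open {U : Set V} (hU : IsOpen U) (hne : U.Nonempty) {l l' : V →ₗ[ℝ] ℝ}
    (h : ∀ u ∈ U, l u = l' u) : l = l' := by
  obtain ⟨x, hx⟩ := hne
  obtain ⟨ε, hε, hb⟩ := Metric.isOpen_iff.1 hU x hx
  ext v
  set c := ε / 2 / (‖v‖ + 1) with hc
  have hcp : 0 < c := by positivity
  have h1 : x + c • v ∈ U := by
    apply hb
    rw [Metric.mem_ball, dist_eq_norm, add_sub_cancel_left, norm_smul, Real.norm_eq_abs,
      abs_of_pos hcp]
    have h2 : c * (‖v‖ + 1) = ε / 2 := by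
      rw [hc]; field_simp
    nlinarith
  have h2 := h _ h1
  have h3 := h _ hx
  rw [map_add, map_add, map_smul, map_smul, h3] at h2
  have h4 : c • l v = c • l' v := by linarith
  exact smul_right_injective ℝ hcp.ne' h4

/-- A weak rational polyhedral fundamental domain gives an exact one. -/
theorem exact_of_weak [FiniteDimensional ℝ V] {L : AddSubgroup V} (hL : IsLattice L) {E : Set V}
    (hE : IsCone E) {Γ : Subgroup (V ≃ₗ[ℝ] V)} (hΓL : Preserves Γ (L : Set V))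
    (hΓE : Preserves Γ E) {s₀ : Finset V} (hs₀ : ∀ v ∈ s₀, v ∈ L ∧ v ∈ E)
    (hcov : ∀ x ∈ interior E, ∃ γ ∈ Γ, γ x ∈ cone (s₀ : Set V))
    (hrat : ∀ x ∈ E, ∃ f : Finset V, (∀ v ∈ f, v ∈ L ∧ v ∈ E) ∧ x ∈ cone (f : Set V)) :
    HasFundDomain L E Γ := by
  classical
  obtain ⟨ξ, hξL, hξE⟩ := exists_integral_pos hL hE
  have hSfin := finite_intertwine hL hE hΓL hΓE hξE ξ
  obtain ⟨ζ, hζL, hζ⟩ := exists_separating hL hSfin
  have hD0 := finite_min hL hE hΓL hΓE hξL hξE hs₀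
  set D0 := {l : V →ₗ[ℝ] ℝ | (∃ γ ∈ Γ, l = ξ.comp (γ : V →ₗ[ℝ] V)) ∧
      ∃ x ∈ cone (s₀ : Set V), x ∈ interior E ∧ ∀ γ ∈ Γ, l x ≤ ξ (γ x)} with hD0def
  have hΦ : (⋃ l ∈ D0, {γ : V ≃ₗ[ℝ] V | γ ∈ Γ ∧ ξ.comp (γ : V →ₗ[ℝ] V) = l}).Finite :=
    hD0.biUnion fun l _ => finite_intertwine hL hE hΓL hΓE hξE l
  let t : Finset V := hΦ.toFinset.biUnion fun γ => s₀.image fun v => γ v
  have ht : ∀ v ∈ t, v ∈ L ∧ v ∈ E := by
    intro v hv
    obtain ⟨γ, hγ, hv'⟩ := Finset.mem_biUnion.1 hv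
    obtain ⟨w, hw, rfl⟩ := Finset.mem_image.1 hv'
    rw [Set.Finite.mem_toFinset] at hγ
    simp only [Set.mem_iUnion] at hγ
    obtain ⟨l, _, hγΓ, _⟩ := hγ
    exact ⟨hΓL γ hγΓ w (hs₀ w hw).1, hΓE γ hγΓ w (hs₀ w hw).2⟩
  have hDt := finite_min hL hE hΓL hΓE hξL hξE ht
  set Dt := {l : V →ₗ[ℝ] ℝ | (∃ γ ∈ Γ, l = ξ.comp (γ : V →ₗ[ℝ] V)) ∧
      ∃ x ∈ cone (t : Set V), x ∈ interior E ∧ ∀ γ ∈ Γ, l x ≤ ξ (γ x)} with hDtdef
  let J : Finset (V →ₗ[ℝ] ℝ) := (hDt.toFinset.image fun l => l - ξ) ∪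
    (hSfin.toFinset.image fun γ : V ≃ₗ[ℝ] V => ζ.comp (γ : V →ₗ[ℝ] V) - ζ)
  have hJ : ∀ l ∈ J, ∀ x ∈ L, ∃ z : ℤ, l x = z := by
    intro l hl x hx
    rcases Finset.mem_union.1 hl with h | h
    · obtain ⟨l', hl', rfl⟩ := Finset.mem_image.1 h
      rw [Set.Finite.mem_toFinset] at hl'
      obtain ⟨⟨γ, hγ, rfl⟩, -⟩ := hl'
      obtain ⟨a, ha⟩ := comp_integral hΓL hγ hξL x hx
      obtain ⟨b, hb⟩ := hξL x hx
      exact ⟨a - b, by rw [LinearMap.sub_apply, ha, hb]; push_cast; ring⟩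
    · obtain ⟨γ, hγ, rfl⟩ := Finset.mem_image.1 h
      rw [Set.Finite.mem_toFinset] at hγ
      obtain ⟨a, ha⟩ := comp_integral hΓL hγ.1 hζL x hx
      obtain ⟨b, hb⟩ := hζL x hx
      exact ⟨a - b, by rw [LinearMap.sub_apply, ha, hb]; push_cast; ring⟩
  set D : Set V := {x | x ∈ cone (t : Set V) ∧ ∀ l ∈ J, 0 ≤ l x} with hD
  have hDrat : RatPoly L D := cuts ⟨t, fun v hv => (ht v hv).1, rfl⟩ J hJ
  have hDmem : ∀ x, x ∈ D ↔ x ∈ cone (t : Set V) ∧ (∀ l ∈ Dt, ξ x ≤ l x) ∧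
      ∀ γ ∈ Γ, ξ.comp (γ : V →ₗ[ℝ] V) = ξ → ζ x ≤ ζ (γ x) := by
    intro x
    constructor
    · rintro ⟨h1, h2⟩
      refine ⟨h1, fun l hl => ?_, fun γ hγ hγξ => ?_⟩
      · have := h2 (l - ξ) (Finset.mem_union_left _ (Finset.mem_image.2
          ⟨l, (Set.Finite.mem_toFinset _).2 hl, rfl⟩))
        rw [LinearMap.sub_apply] at this
        linarith
      · have := h2 (ζ.comp (γ : V →ₗ[ℝ] V) - ζ) (Finset.mem_union_right _ (Finset.mem_image.2
          ⟨γ, (Set.Finite.mem_toFinset _).2 ⟨hγ, hγξ⟩, rfl⟩))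
        rw [LinearMap.sub_apply] at this
        exact sub_nonneg.1 this
    · rintro ⟨h1, h2, h3⟩
      refine ⟨h1, fun l hl => ?_⟩
      rcases Finset.mem_union.1 hl with h | h
      · obtain ⟨l', hl', rfl⟩ := Finset.mem_image.1 h
        rw [Set.Finite.mem_toFinset] at hl'
        have := h2 l' hl'
        rw [LinearMap.sub_apply]
        linarith
      · obtain ⟨γ, hγ, rfl⟩ := Finset.mem_image.1 h
        rw [Set.Finite.mem_toFinset] at hγ
        have := h3 γ hγ.1 hγ.2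
        rw [LinearMap.sub_apply]
        exact sub_nonneg.2 this
  have htE : cone (t : Set V) ⊆ E := cone_subset hE fun v hv => (ht v hv).2
  have hDE : D ⊆ E := fun x hx => htE hx.1
  -- Claim 1
  have hmove : ∀ x ∈ interior E, ∃ γ ∈ Γ, γ x ∈ D := by
    intro x hx
    obtain ⟨γ₁, hγ₁, hp⟩ := hcov x hx
    have hpE := interior_map hΓE hγ₁ hx
    obtain ⟨γ, hγ, hmin⟩ := exists_min hL hΓL hΓE hξL hξE hpE
    -- minimise over the stabiliser
    obtain ⟨σ, ⟨hσ, hσξ⟩, hσmin⟩ := Set.exists_min_image _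
      (fun σ : V ≃ₗ[ℝ] V => ζ (σ (γ (γ₁ x)))) hSfin ⟨1, Γ.one_mem, rfl⟩
    have hσξ' : ∀ y, ξ (σ y) = ξ y := fun y => congrArg (fun l : V →ₗ[ℝ] ℝ => l y) hσξ
    have hmin' : ∀ γ' ∈ Γ, ξ (σ (γ (γ₁ x))) ≤ ξ (γ' (γ₁ x)) := fun γ' hγ' => by
      rw [hσξ']; exact hmin γ' hγ'
    refine ⟨σ * γ * γ₁, Γ.mul_mem (Γ.mul_mem hσ hγ) hγ₁, ?_⟩
    show σ (γ (γ₁ x)) ∈ D
    have hmem0 : ξ.comp ((σ * γ : V ≃ₗ[ℝ] V) : V →ₗ[ℝ] V) ∈ D0 :=
      ⟨⟨σ * γ, Γ.mul_mem hσ hγ, rfl⟩, γ₁ x, hp, hpE, hmin'⟩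
    rw [hDmem]
    refine ⟨?_, ?_, ?_⟩
    · obtain ⟨c, hc, hce⟩ := mem_cone.1 hp
      rw [← hce, map_sum, map_sum]
      refine cone_sum fun v hv => ?_
      rw [map_smul, map_smul]
      refine cone_smul (hc v hv) (subset_cone _ ?_)
      refine Finset.mem_coe.2 (Finset.mem_biUnion.2 ⟨σ * γ, ?_, Finset.mem_image.2 ⟨v, hv, rfl⟩⟩)
      rw [Set.Finite.mem_toFinset]
      simp only [Set.mem_iUnion]
      exact ⟨_, hmem0, Γ.mul_mem hσ hγ, rfl⟩
    · rintro _ ⟨⟨γ', hγ', rfl⟩, -⟩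
      exact hmin' (γ' * (σ * γ)) (Γ.mul_mem hγ' (Γ.mul_mem hσ hγ))
    · intro γ' hγ' hγ'ξ
      refine hσmin (γ' * σ) ⟨Γ.mul_mem hγ' hσ, ?_⟩
      ext y
      have h1 := congrArg (fun l : V →ₗ[ℝ] ℝ => l (σ y)) hγ'ξ
      have h2 := hσξ' y
      simp only [LinearMap.comp_apply, LinearEquiv.coe_coe] at h1 ⊢
      rw [← h2, ← h1]
      rfl
  -- Claim 2
  have hminD : ∀ x ∈ D, x ∈ interior E → ∀ γ ∈ Γ, ξ x ≤ ξ (γ x) := by
    intro x hx hxE γ hγ
    obtain ⟨γ₀, hγ₀, hmin⟩ := exists_min hL hΓL hΓE hξL hξE hxE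
    have h1 : ξ.comp (γ₀ : V →ₗ[ℝ] V) ∈ Dt := ⟨⟨γ₀, hγ₀, rfl⟩, x, hx.1, hxE, hmin⟩
    exact (((hDmem x).1 hx).2.1 _ h1).trans (hmin γ hγ)
  -- D is closed
  have hDclosed : IsClosed D := by
    have h1 : IsClosed (cone (t : Set V)) := cone_isClosed hE fun v hv => (ht v hv).2
    have h2 : D = cone (t : Set V) ∩ ⋂ l ∈ J, {x | 0 ≤ l x} := by
      ext x
      simp [hD]
    rw [h2]
    refine h1.inter (isClosed_biInter fun l _ => ?_)
    exact isClosed_le continuous_const l.continuous_of_finiteDimensional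
  -- Claim 4
  have hall : ∀ x ∈ E, ∃ γ ∈ Γ, γ x ∈ D := by
    intro x hx
    obtain ⟨f, hf, hxf⟩ := hrat x hx
    obtain ⟨y, hyL, hyE⟩ := exists_lattice_interior hL hE
    have hxn : ∀ n : ℕ, x + (1 / ((n : ℝ) + 1)) • y ∈ interior E := fun n =>
      add_interior hE hx (interior_smul hE hyE (by positivity))
    choose g hg hgD using fun n => hmove _ (hxn n)
    have hs' : ∀ v ∈ insert y f, v ∈ L ∧ v ∈ E := by
      intro v hv
      rcases Finset.mem_insert.1 hv with rfl | hv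
      · exact ⟨hyL, interior_subset hyE⟩
      · exact hf v hv
    have hK := siegel hL hE hΓL hΓE hξL hξE hs' ht
    set K := {γ : V ≃ₗ[ℝ] V | γ ∈ Γ ∧ ∃ x ∈ cone ((insert y f : Finset V) : Set V),
      γ x ∈ cone (t : Set V) ∧ γ x ∈ interior E} with hKdef
    have hgK : ∀ n, g n ∈ K := by
      intro n
      refine ⟨hg n, _, ?_, (hgD n).1, interior_map hΓE (hg n) (hxn n)⟩
      refine cone_add (cone_mono ?_ hxf) (cone_smul (by positivity) (subset_cone _ ?_))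
      · intro v hv
        exact Finset.mem_coe.2 (Finset.mem_insert_of_mem hv)
      · exact Finset.mem_coe.2 (Finset.mem_insert_self _ _)
    by_contra hcon
    push Not at hcon
    have htend : Filter.Tendsto (fun n : ℕ => x + (1 / ((n : ℝ) + 1)) • y) Filter.atTop
        (nhds x) := by
      have h1 := (tendsto_one_div_add_atTop_nhds_zero_nat (𝕜 := ℝ)).smul_const y
      have h2 := h1.const_add x
      simpa using h2
    have hev : ∀ γ ∈ K, ∀ᶠ n : ℕ in Filter.atTop, γ (x + (1 / ((n : ℝ) + 1)) • y) ∉ D := by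
      intro γ hγ
      have hc : Continuous γ :=
        LinearMap.continuous_of_finiteDimensional (γ : V →ₗ[ℝ] V)
      have h1 := (hc.tendsto x).comp htend
      exact h1.eventually (hDclosed.isOpen_compl.mem_nhds (hcon γ hγ.1))
    obtain ⟨n, hn⟩ := ((Filter.eventually_all_finite hK).2 hev).exists
    exact hn (g n) (hgK n) (hgD n)
  refine ⟨D, hDrat, ?_, ?_⟩
  · ext x
    simp only [Set.mem_iUnion]
    constructor
    · rintro ⟨γ, hγ, y, hy, rfl⟩
      exact hΓE γ hγ _ (hDE hy)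
    · intro hx
      obtain ⟨γ, hγ, h⟩ := hall x hx
      exact ⟨γ⁻¹, Γ.inv_mem hγ, γ x, h, γ.symm_apply_apply x⟩
  · intro γ hγ hne
    rw [Set.disjoint_left]
    rintro x hx ⟨y, hy, hyx⟩
    apply hne
    have hc : Continuous (γ⁻¹ : V ≃ₗ[ℝ] V) :=
      LinearMap.continuous_of_finiteDimensional ((γ⁻¹ : V ≃ₗ[ℝ] V) : V →ₗ[ℝ] V)
    have hUo : IsOpen (interior D ∩ (γ⁻¹ : V ≃ₗ[ℝ] V) ⁻¹' interior D) :=
      isOpen_interior.inter (isOpen_interior.preimage hc)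
    have hUne : (interior D ∩ (γ⁻¹ : V ≃ₗ[ℝ] V) ⁻¹' interior D).Nonempty := by
      refine ⟨x, hx, ?_⟩
      have : (γ⁻¹ : V ≃ₗ[ℝ] V) x = y := by
        rw [← hyx]; exact γ.symm_apply_apply y
      rw [Set.mem_preimage, this]
      exact hy
    have hγγ : ∀ u, γ ((γ⁻¹ : V ≃ₗ[ℝ] V) u) = u := fun u => γ.apply_symm_apply u
    have hint : interior D ⊆ interior E := interior_mono hDE
    have h1 : ξ.comp ((γ⁻¹ : V ≃ₗ[ℝ] V) : V →ₗ[ℝ] V) = ξ := by
      refine eq_of_open hUo hUne ?_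
      rintro u ⟨hu1, hu2⟩
      refine le_antisymm ?_ (hminD u (interior_subset hu1) (hint hu1) _ (Γ.inv_mem hγ))
      have := hminD _ (interior_subset hu2) (hint hu2) _ hγ
      rwa [hγγ] at this
    have h1' : ξ.comp (γ : V →ₗ[ℝ] V) = ξ := by
      ext u
      have := congrArg (fun l : V →ₗ[ℝ] ℝ => l (γ u)) h1
      simp only [LinearMap.comp_apply, LinearEquiv.coe_coe] at this ⊢
      rw [← this]
      congr 1
      exact (γ.symm_apply_apply u)
    have h2 : ζ.comp ((γ⁻¹ : V ≃ₗ[ℝ] V) : V →ₗ[ℝ] V) = ζ := by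
      refine eq_of_open hUo hUne ?_
      rintro u ⟨hu1, hu2⟩
      refine le_antisymm ?_ (((hDmem u).1 (interior_subset hu1)).2.2 _ (Γ.inv_mem hγ) h1)
      have := ((hDmem _).1 (interior_subset hu2)).2.2 _ hγ h1'
      rwa [hγγ] at this
    have h3 := hζ _ ⟨Γ.inv_mem hγ, h1⟩ h2
    exact inv_eq_one.1 h3

end Pool.Agent.W539.Cone
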