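import Pool.Agent.W539.Cone.Lat

set_option autoImplicit false

namespace Pool.Agent.W539.Cone

variable {V : Type*} [NormedAddCommGroup V] [NormedSpace ℝ V]

lemma comp_integral {L : AddSubgroup V} {Γ : Subgroup (V ≃ₗ[ℝ] V)} (hΓ : Preserves Γ (L : Set V))
    {γ : V ≃ₗ[ℝ] V} (hγ : γ ∈ Γ) {l : V →ₗ[ℝ] ℝ} (hl : Integral L l) :
    Integral L (l.comp (γ : V →ₗ[ℝ] V)) := fun x hx => hl _ (hΓ γ hγ x hx)

lemma closure_map [FiniteDimensional ℝ V] {E : Set V} {Γ : Subgroup (V ≃ₗ[ℝ] V)}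
    (hΓ : Preserves Γ E) {γ : V ≃ₗ[ℝ] V} (hγ : γ ∈ Γ) {x : V} (hx : x ∈ closure E) :
    γ x ∈ closure E :=
  map_mem_closure (LinearMap.continuous_of_finiteDimensional (γ : V →ₗ[ℝ] V)) hx
    fun y hy => hΓ γ hγ y hy

lemma interior_map [FiniteDimensional ℝ V] {E : Set V} {Γ : Subgroup (V ≃ₗ[ℝ] V)}
    (hΓ : Preserves Γ E) {γ : V ≃ₗ[ℝ] V} (hγ : γ ∈ Γ) {x : V} (hx : x ∈ interior E) :
    γ x ∈ interior E := by
  have hc : Continuous (γ⁻¹ : V ≃ₗ[ℝ] V) :=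
    LinearMap.continuous_of_finiteDimensional ((γ⁻¹ : V ≃ₗ[ℝ] V) : V →ₗ[ℝ] V)
  refine mem_interior.2 ⟨(γ⁻¹ : V ≃ₗ[ℝ] V) ⁻¹' interior E, ?_, isOpen_interior.preimage hc, ?_⟩
  · intro y hy
    have h1 := hΓ γ hγ _ (interior_subset hy)
    have h2 : γ ((γ⁻¹ : V ≃ₗ[ℝ] V) y) = y := γ.apply_symm_apply y
    rwa [h2] at h1
  · have h2 : (γ⁻¹ : V ≃ₗ[ℝ] V) (γ x) = x := γ.symm_apply_apply x
    rw [Set.mem_preimage, h2]
    exact hx

lemma comp_pos [FiniteDimensional ℝ V] {E : Set V} {Γ : Subgroup (V ≃ₗ[ℝ] V)}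
    (hΓ : Preserves Γ E) {γ : V ≃ₗ[ℝ] V} (hγ : γ ∈ Γ) {l : V →ₗ[ℝ] ℝ} (hl : Pos E l) :
    Pos E (l.comp (γ : V →ₗ[ℝ] V)) := fun x hx h0 => by
  refine hl _ (closure_map hΓ hγ hx) ?_
  simpa using h0

/-- F2 -/
lemma finite_intertwine [FiniteDimensional ℝ V] {L : AddSubgroup V} (hL : IsLattice L)
    {E : Set V} (hE : IsCone E) {Γ : Subgroup (V ≃ₗ[ℝ] V)} (hΓL : Preserves Γ (L : Set V))
    (hΓE : Preserves Γ E) {l' : V →ₗ[ℝ] ℝ} (hl' : Pos E l') (l : V →ₗ[ℝ] ℝ) :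
    {γ : V ≃ₗ[ℝ] V | γ ∈ Γ ∧ l'.comp (γ : V →ₗ[ℝ] V) = l}.Finite := by
  obtain ⟨s, hs, hspan⟩ := exists_basis_in_cone hL hE
  obtain ⟨δ, hδ, hb⟩ := hl'.bound hE
  have hfin : (Set.pi Set.univ fun v : s => {x : V | x ∈ L ∧ ‖x‖ ≤ l v / δ}).Finite :=
    Set.Finite.pi fun v => hL.finite _
  refine Set.Finite.of_finite_image (f := fun (γ : V ≃ₗ[ℝ] V) (v : s) => γ v)
    (hfin.subset ?_) ?_
  · rintro _ ⟨γ, ⟨hγ, hγl⟩, rfl⟩ v -
    refine ⟨hΓL γ hγ _ (hs v v.2).1, ?_⟩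
    rw [le_div_iff₀ hδ, ← hγl, mul_comm]
    exact hb _ (subset_closure (hΓE γ hγ _ (hs v v.2).2))
  · intro γ _ γ' _ h
    have h1 : (γ : V →ₗ[ℝ] V) = γ' :=
      LinearMap.ext_on hspan fun v hv => congrFun h ⟨v, hv⟩
    exact LinearEquiv.toLinearMap_injective h1

/-- a functional positive on the closed cone -/
lemma exists_pos [FiniteDimensional ℝ V] {E : Set V} (hE : IsCone E) :
    ∃ l : V →ₗ[ℝ] ℝ, Pos E l := by
  have hcomp : IsCompact (Metric.sphere (0 : V) 1 ∩ closure E) :=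
    (isCompact_sphere 0 1).inter_right isClosed_closure
  have hconv : Convex ℝ (closure E) := by
    intro x hx y hy a b ha hb _
    exact closure_add_mem hE (closure_smul_mem hE hx ha) (closure_smul_mem hE hy hb)
  have h0 : (0 : V) ∈ closure E := subset_closure hE.zero_mem
  have key : ∃ f : V →ₗ[ℝ] ℝ, (∀ b ∈ closure E, 0 ≤ f b) ∧
      ∀ x ∈ Metric.sphere (0 : V) 1 ∩ closure E, 0 < f x := by
    refine hcomp.induction_on (p := fun A => ∃ f : V →ₗ[ℝ] ℝ, (∀ b ∈ closure E, 0 ≤ f b) ∧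
      ∀ x ∈ A, x ∈ closure E → 0 < f x) ⟨0, by simp, by simp⟩ ?_ ?_ ?_ |>.imp ?_
    · rintro s t hst ⟨f, h1, h2⟩
      exact ⟨f, h1, fun x hx => h2 x (hst hx)⟩
    · rintro s t ⟨f, h1, h2⟩ ⟨g, h3, h4⟩
      refine ⟨f + g, fun b hb => add_nonneg (h1 b hb) (h3 b hb), fun x hx hxE => ?_⟩
      rcases hx with hx | hx
      · exact add_pos_of_pos_of_nonneg (h2 x hx hxE) (h3 x hxE)
      · exact add_pos_of_nonneg_of_pos (h1 x hxE) (h4 x hx hxE)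
    · rintro x ⟨hx1, hx2⟩
      have hxne : x ≠ 0 := by
        rintro rfl
        simp at hx1
      have hneg : -x ∉ closure E := fun h => hxne (hE.pointed x hx2 h)
      obtain ⟨f, u, hf1, hf2⟩ := geometric_hahn_banach_point_closed hconv isClosed_closure hneg
      have hu : u < 0 := by simpa using hf2 0 h0
      have hfn : ∀ b ∈ closure E, 0 ≤ f b := by
        intro b hb
        by_contra hlt
        rw [not_le] at hlt
        have h1 := hf2 ((u / f b) • b) (closure_smul_mem hE hb (div_nonneg_of_nonpos hu.le hlt.le))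
        rw [map_smul, smul_eq_mul, div_mul_cancel₀ _ hlt.ne] at h1
        exact lt_irrefl _ h1
      refine ⟨{y | 0 < f y}, mem_nhdsWithin_of_mem_nhds ?_, (f : V →ₗ[ℝ] ℝ), hfn,
        fun y hy _ => hy⟩
      refine (isOpen_lt continuous_const f.continuous).mem_nhds ?_
      have : f (-x) = - f x := map_neg f x
      simp only [Set.mem_ofPred_eq]
      linarith
    · rintro f ⟨h1, h2⟩
      exact ⟨h1, fun x hx => h2 x hx hx.2⟩
  obtain ⟨f, -, hf⟩ := key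
  refine ⟨f, fun x hx hx0 => ?_⟩
  have hn : 0 < ‖x‖ := norm_pos_iff.2 hx0
  have h1 : ‖x‖⁻¹ • x ∈ Metric.sphere (0 : V) 1 ∩ closure E := by
    refine ⟨?_, closure_smul_mem hE hx (by positivity)⟩
    rw [mem_sphere_zero_iff_norm, norm_smul, norm_inv, norm_norm, inv_mul_cancel₀ hn.ne']
  have h2 := hf _ h1
  rw [map_smul, smul_eq_mul] at h2
  exact (mul_pos_iff_of_pos_left (by positivity)).1 h2

lemma coord_bound [FiniteDimensional ℝ V] {n : ℕ} (b : Module.Basis (Fin n) ℝ V) :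
    ∃ C : ℝ, 0 < C ∧ ∀ x : V, ∑ i, |b.repr x i| ≤ C * ‖x‖ := by
  refine ⟨∑ i, ‖(b.coord i).toContinuousLinearMap‖ + 1, by positivity, fun x => ?_⟩
  have h1 : ∑ i, |b.repr x i| ≤ ∑ i, ‖(b.coord i).toContinuousLinearMap‖ * ‖x‖ := by
    refine Finset.sum_le_sum fun i _ => ?_
    exact (b.coord i).toContinuousLinearMap.le_opNorm x
  rw [← Finset.sum_mul] at h1
  have := norm_nonneg x
  nlinarith

/-- F3 -/
lemma exists_integral_pos [FiniteDimensional ℝ V] {L : AddSubgroup V} (hL : IsLattice L)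
    {E : Set V} (hE : IsCone E) : ∃ l : V →ₗ[ℝ] ℝ, Integral L l ∧ Pos E l := by
  obtain ⟨n, b, hb⟩ := exists_basis hL
  obtain ⟨f, hf⟩ := exists_pos hE
  obtain ⟨δ, hδ, hfb⟩ := hf.bound hE
  obtain ⟨C, hC, hcb⟩ := coord_bound b
  obtain ⟨N, hN⟩ := exists_nat_gt (C / δ)
  rw [div_lt_iff₀ hδ] at hN
  refine ⟨∑ i, (⌊N * f (b i)⌋ : ℝ) • b.coord i, ?_, ?_⟩
  · intro x hx
    choose z hz using (hb x).1 hx
    refine ⟨∑ i, ⌊N * f (b i)⌋ * z i, ?_⟩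
    simp [LinearMap.sum_apply, hz]
  · intro x hx hx0
    have hn : 0 < ‖x‖ := norm_pos_iff.2 hx0
    have h1 : N * f x - (∑ i, (⌊N * f (b i)⌋ : ℝ) • b.coord i) x =
        ∑ i, Int.fract (N * f (b i)) * b.repr x i := by
      have h2 : f x = ∑ i, b.repr x i * f (b i) := by
        conv_lhs => rw [← b.sum_repr x]
        rw [map_sum]
        refine Finset.sum_congr rfl fun i _ => ?_
        rw [map_smul, smul_eq_mul]
      rw [h2, LinearMap.sum_apply, Finset.mul_sum, ← Finset.sum_sub_distrib]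
      refine Finset.sum_congr rfl fun i _ => ?_
      rw [LinearMap.smul_apply, smul_eq_mul, Module.Basis.coord_apply, ← Int.self_sub_floor]
      ring
    have h3 : ∑ i, Int.fract (N * f (b i)) * b.repr x i ≤ C * ‖x‖ := by
      refine le_trans (Finset.sum_le_sum fun i _ => ?_) (hcb x)
      calc Int.fract (N * f (b i)) * b.repr x i ≤ Int.fract (N * f (b i)) * |b.repr x i| := by
            gcongr
            exact le_abs_self _
        _ ≤ 1 * |b.repr x i| := by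
            gcongr
            exact (Int.fract_lt_one _).le
        _ = |b.repr x i| := one_mul _
    have h4 := hfb x hx
    have h5 : (N : ℝ) * (δ * ‖x‖) ≤ N * f x := by gcongr
    nlinarith

/-- F3c -/
lemma exists_separating [FiniteDimensional ℝ V] {L : AddSubgroup V} (hL : IsLattice L)
    {S : Set (V ≃ₗ[ℝ] V)} (hS : S.Finite) :
    ∃ l : V →ₗ[ℝ] ℝ, Integral L l ∧ ∀ γ ∈ S, l.comp (γ : V →ₗ[ℝ] V) = l → γ = 1 := by
  classical
  obtain ⟨n, b, hb⟩ := exists_basis hL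
  -- bad parameters
  have hbad : (⋃ γ ∈ S, {t : ℕ | γ ≠ 1 ∧ (∑ i : Fin n, ((t : ℝ) ^ (i : ℕ)) • b.coord i).comp
      (γ : V →ₗ[ℝ] V) = ∑ i : Fin n, ((t : ℝ) ^ (i : ℕ)) • b.coord i}).Finite := by
    refine hS.biUnion fun γ _ => ?_
    by_cases hγ : γ = 1
    · simp [hγ]
    · obtain ⟨j, hj⟩ : ∃ j, γ (b j) ≠ b j := by
        by_contra hcon
        push Not at hcon
        apply hγ
        apply LinearEquiv.toLinearMap_injective
        exact b.ext fun j => by simpa using hcon j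
      obtain ⟨i0, hi0⟩ : ∃ i, b.repr (γ (b j) - b j) i ≠ 0 := by
        by_contra hcon
        push Not at hcon
        apply hj
        rw [← sub_eq_zero]
        apply b.repr.injective
        ext i
        simpa using hcon i
      set p : Polynomial ℝ := ∑ i : Fin n, Polynomial.monomial (i : ℕ)
        (b.repr (γ (b j) - b j) i) with hp
      have hp0 : p ≠ 0 := by
        intro h0
        have h1 : p.coeff i0 = b.repr (γ (b j) - b j) i0 := by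
          rw [hp, Polynomial.finsetSum_coeff]
          simp only [Polynomial.coeff_monomial]
          rw [Finset.sum_eq_single i0]
          · simp
          · intro k _ hk
            rw [if_neg]
            exact fun h => hk (Fin.ext h)
          · simp
        rw [h0] at h1
        exact hi0 (by simpa using h1.symm)
      have hroots : {t : ℕ | p.eval (t : ℝ) = 0}.Finite := by
        refine Set.Finite.of_finite_image (f := fun t : ℕ => (t : ℝ)) ?_ ?_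
        · refine (p.roots.toFinset.finite_toSet).subset ?_
          rintro _ ⟨t, ht, rfl⟩
          simp only [Finset.mem_coe, Multiset.mem_toFinset]
          rw [Polynomial.mem_roots hp0]
          exact ht
        · intro a _ c _ h
          simpa using h
      refine hroots.subset ?_
      rintro t ⟨-, ht⟩
      have h2 := congrArg (fun l : V →ₗ[ℝ] ℝ => l (b j)) ht
      simp only [LinearMap.comp_apply, LinearEquiv.coe_coe] at h2
      have h3 : (∑ i : Fin n, ((t : ℝ) ^ (i : ℕ)) • b.coord i) (γ (b j) - b j) = 0 := by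
        rw [map_sub, h2, sub_self]
      simp only [Set.mem_ofPred_eq]
      rw [hp, Polynomial.eval_finsetSum, ← h3, LinearMap.sum_apply]
      refine Finset.sum_congr rfl fun i _ => ?_
      rw [Polynomial.eval_monomial, LinearMap.smul_apply, smul_eq_mul, Module.Basis.coord_apply,
        mul_comm]
  obtain ⟨t, ht⟩ := hbad.infinite_compl.nonempty
  refine ⟨∑ i : Fin n, ((t : ℝ) ^ (i : ℕ)) • b.coord i, ?_, ?_⟩
  · intro x hx
    choose z hz using (hb x).1 hx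
    refine ⟨∑ i : Fin n, (t : ℤ) ^ (i : ℕ) * z i, ?_⟩
    simp [LinearMap.sum_apply, hz]
  · intro γ hγ h
    by_contra hne
    apply ht
    simp only [Set.mem_iUnion]
    exact ⟨γ, hγ, hne, h⟩

section orbit

variable [FiniteDimensional ℝ V] {L : AddSubgroup V} (hL : IsLattice L) {E : Set V}
  (hE : IsCone E) {Γ : Subgroup (V ≃ₗ[ℝ] V)} (hΓL : Preserves Γ (L : Set V))
  (hΓE : Preserves Γ E) {ξ : V →ₗ[ℝ] ℝ} (hξL : Integral L ξ) (hξE : Pos E ξ)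

include hL hΓL hΓE hξL hξE

/-- F4 -/
lemma exists_min {x : V} (hx : x ∈ interior E) : ∃ γ₀ ∈ Γ, ∀ γ ∈ Γ, ξ (γ₀ x) ≤ ξ (γ x) := by
  have hfin : {l : V →ₗ[ℝ] ℝ | (∃ γ ∈ Γ, l = ξ.comp (γ : V →ₗ[ℝ] V)) ∧ l x ≤ ξ x}.Finite := by
    refine (finite_bounded hL hx (ξ x)).subset ?_
    rintro _ ⟨⟨γ, hγ, rfl⟩, h⟩
    exact ⟨comp_integral hΓL hγ hξL,
      fun y hy => (comp_pos hΓE hγ hξE).nonneg (subset_closure hy), h⟩
  have hne : {l : V →ₗ[ℝ] ℝ | (∃ γ ∈ Γ, l = ξ.comp (γ : V →ₗ[ℝ] V)) ∧ l x ≤ ξ x}.Nonempty :=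
    ⟨ξ, ⟨1, Γ.one_mem, rfl⟩, le_rfl⟩
  obtain ⟨l, ⟨⟨γ₀, hγ₀, rfl⟩, h1⟩, h2⟩ := Set.exists_min_image _ (fun l : V →ₗ[ℝ] ℝ => l x) hfin hne
  refine ⟨γ₀, hγ₀, fun γ hγ => ?_⟩
  by_cases h3 : ξ (γ x) ≤ ξ x
  · exact h2 (ξ.comp (γ : V →ₗ[ℝ] V)) ⟨⟨γ, hγ, rfl⟩, h3⟩
  · exact le_trans h1 (not_le.1 h3).le

include hE

/-- F5 -/
lemma finite_min {s : Finset V} (hs : ∀ v ∈ s, v ∈ L ∧ v ∈ E) :
    {l : V →ₗ[ℝ] ℝ | (∃ γ ∈ Γ, l = ξ.comp (γ : V →ₗ[ℝ] V)) ∧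
      ∃ x ∈ cone (s : Set V), x ∈ interior E ∧ ∀ γ ∈ Γ, l x ≤ ξ (γ x)}.Finite := by
  classical
  -- the restricted tuples
  let T : (F : Finset V) → Set (F → ℕ) := fun F =>
    {τ | ∃ γ ∈ Γ, ∀ v : F, ξ (γ v) = τ v}
  have hT : ∀ F : Finset V, {τ | Minimal (· ∈ T F) τ}.Finite := by
    intro F
    refine (setOfPred_minimal_antichain _).finite_of_partiallyWellOrderedOn ?_
    exact Set.isPWO_of_wellQuasiOrderedLE _
  have hD : ∀ F : Finset V, (∑ v ∈ F, v) ∈ interior E →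
      {l : V →ₗ[ℝ] ℝ | (∃ γ ∈ Γ, l = ξ.comp (γ : V →ₗ[ℝ] V)) ∧
        ∃ τ : F → ℕ, Minimal (· ∈ T F) τ ∧ ∀ v : F, l v = τ v}.Finite := by
    intro F hF
    have : (⋃ τ ∈ {τ | Minimal (· ∈ T F) τ}, {l : V →ₗ[ℝ] ℝ | Integral L l ∧
        (∀ y ∈ E, 0 ≤ l y) ∧ l (∑ v ∈ F, v) ≤ ∑ v : F, (τ v : ℝ)}).Finite :=
      (hT F).biUnion fun τ _ => finite_bounded hL hF _
    refine this.subset ?_
    rintro _ ⟨⟨γ, hγ, rfl⟩, τ, hτ, hl⟩
    simp only [Set.mem_iUnion]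
    refine ⟨τ, hτ, comp_integral hΓL hγ hξL,
      fun y hy => (comp_pos hΓE hγ hξE).nonneg (subset_closure hy), ?_⟩
    rw [map_sum, ← Finset.sum_coe_sort F]
    exact (Finset.sum_congr rfl fun v _ => hl v).le
  have hunion : (⋃ F ∈ {F : Finset V | F ∈ s.powerset ∧ (∑ v ∈ F, v) ∈ interior E},
      {l : V →ₗ[ℝ] ℝ | (∃ γ ∈ Γ, l = ξ.comp (γ : V →ₗ[ℝ] V)) ∧
        ∃ τ : F → ℕ, Minimal (· ∈ T F) τ ∧ ∀ v : F, l v = τ v}).Finite := by
    refine Set.Finite.biUnion ((s.powerset.finite_toSet).subset fun F hF => hF.1) fun F hF => ?_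
    exact hD F hF.2
  refine hunion.subset ?_
  rintro _ ⟨⟨γ, hγ, rfl⟩, x, hx, hxE, hmin⟩
  obtain ⟨t, ht, rfl⟩ := mem_cone.1 hx
  set F := s.filter fun v => 0 < t v with hF
  have hsum : ∑ v ∈ s, t v • v = ∑ v ∈ F, t v • v := by
    rw [hF, Finset.sum_filter]
    refine Finset.sum_congr rfl fun v hv => ?_
    split_ifs with h
    · rfl
    · rw [le_antisymm (not_lt.1 h) (ht v hv), zero_smul]
  have hFt : ∀ v ∈ F, 0 < t v := fun v hv => (Finset.mem_filter.1 hv).2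
  have hFs : ∀ v ∈ F, v ∈ s := fun v hv => (Finset.mem_filter.1 hv).1
  rw [hsum] at hxE hmin
  have hTpos : 0 < ∑ v ∈ F, t v + 1 := by
    have : 0 ≤ ∑ v ∈ F, t v := Finset.sum_nonneg fun v hv => (hFt v hv).le
    linarith
  have hxF : (∑ v ∈ F, v) ∈ interior E := by
    have h1 : (∑ v ∈ F, t v + 1) • (∑ v ∈ F, v) = ∑ v ∈ F, t v • v +
        ∑ v ∈ F, ((∑ v ∈ F, t v + 1) - t v) • v := by
      rw [Finset.smul_sum, ← Finset.sum_add_distrib]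
      refine Finset.sum_congr rfl fun v _ => ?_
      rw [← add_smul]
      congr 1
      ring
    have h2 : (∑ v ∈ F, t v + 1) • (∑ v ∈ F, v) ∈ interior E := by
      rw [h1]
      refine interior_add hE hxE (hE.sum_mem _ _ fun v hv => ?_)
      refine hE.smul_mem _ ?_ _ (hs v (hFs v hv)).2
      have : t v ≤ ∑ v ∈ F, t v := Finset.single_le_sum (fun u hu => (hFt u hu).le) hv
      linarith
    have h3 := interior_smul hE h2 (inv_pos.2 hTpos)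
    rwa [smul_smul, inv_mul_cancel₀ hTpos.ne', one_smul] at h3
  have hnat : ∀ v : F, ∃ m : ℕ, ξ (γ v) = m := by
    intro v
    have hv := hs v (hFs v v.2)
    obtain ⟨z, hz⟩ := hξL _ (hΓL γ hγ _ hv.1)
    have h0 : 0 ≤ ξ (γ v) := hξE.nonneg (subset_closure (hΓE γ hγ _ hv.2))
    rw [hz] at h0
    have h0' : 0 ≤ z := by exact_mod_cast h0
    obtain ⟨m, rfl⟩ := Int.eq_ofNat_of_zero_le h0'
    exact ⟨m, by rw [hz]; simp⟩
  choose τ hτ using hnat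
  simp only [Set.mem_iUnion]
  refine ⟨F, ⟨Finset.mem_powerset.2 (Finset.filter_subset _ _), hxF⟩, ⟨γ, hγ, rfl⟩, τ, ?_, hτ⟩
  refine ⟨⟨γ, hγ, hτ⟩, ?_⟩
  rintro τ' ⟨γ', hγ', hτ'⟩ hle v
  -- minimality
  have h1 := hmin γ' hγ'
  simp only [LinearMap.comp_apply, LinearEquiv.coe_coe, map_sum, map_smul, smul_eq_mul] at h1
  have h2 : ∑ v ∈ F, t v * (ξ (γ v) - ξ (γ' v)) ≤ 0 := by
    simp only [mul_sub, Finset.sum_sub_distrib]
    linarith
  have h3 : ∀ u ∈ F, 0 ≤ t u * (ξ (γ u) - ξ (γ' u)) := by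
    intro u hu
    refine mul_nonneg (hFt u hu).le ?_
    rw [hτ ⟨u, hu⟩, hτ' ⟨u, hu⟩, sub_nonneg]
    exact_mod_cast hle ⟨u, hu⟩
  have h4 := (Finset.sum_eq_zero_iff_of_nonneg h3).1 (le_antisymm h2 (Finset.sum_nonneg h3)) v v.2
  have h5 : ξ (γ v) = ξ (γ' v) := by
    rcases mul_eq_zero.1 h4 with h | h
    · exact absurd h (hFt v v.2).ne'
    · linarith
  rw [hτ, hτ'] at h5
  have h6 : τ v = τ' v := by exact_mod_cast h5
  exact h6.le

/-- F6, the Siegel property -/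
lemma siegel {s s' : Finset V} (hs : ∀ v ∈ s, v ∈ L ∧ v ∈ E) (hs' : ∀ v ∈ s', v ∈ L ∧ v ∈ E) :
    {γ : V ≃ₗ[ℝ] V | γ ∈ Γ ∧ ∃ x ∈ cone (s : Set V), γ x ∈ cone (s' : Set V) ∧
      γ x ∈ interior E}.Finite := by
  have h1 := finite_min hL hE hΓL hΓE hξL hξE hs
  have h2 := finite_min hL hE hΓL hΓE hξL hξE hs'
  have h3 := h2.biUnion (t := fun l' => ⋃ l ∈ {l : V →ₗ[ℝ] ℝ | (∃ γ ∈ Γ, l = ξ.comp (γ : V →ₗ[ℝ] V)) ∧
      ∃ x ∈ cone (s : Set V), x ∈ interior E ∧ ∀ γ ∈ Γ, l x ≤ ξ (γ x)},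
      {γ : V ≃ₗ[ℝ] V | γ ∈ Γ ∧ l'.comp (γ : V →ₗ[ℝ] V) = l}) (by
    rintro _ ⟨⟨δ, hδ, rfl⟩, -⟩
    refine h1.biUnion fun l _ => ?_
    exact finite_intertwine hL hE hΓL hΓE (comp_pos hΓE hδ hξE) l)
  refine h3.subset ?_
  rintro γ ⟨hγ, x, hxs, hxs', hxE⟩
  obtain ⟨δ, hδ, hmin⟩ := exists_min hL hΓL hΓE hξL hξE hxE
  simp only [Set.mem_iUnion]
  refine ⟨ξ.comp (δ : V →ₗ[ℝ] V), ⟨⟨δ, hδ, rfl⟩, γ x, hxs', hxE, hmin⟩,
    (ξ.comp (δ : V →ₗ[ℝ] V)).comp (γ : V →ₗ[ℝ] V), ⟨⟨δ * γ, Γ.mul_mem hδ hγ, rfl⟩, x, hxs, ?_, ?_⟩,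
    hγ, rfl⟩
  · have := interior_map hΓE (Γ.inv_mem hγ) hxE
    have h2 : (γ⁻¹ : V ≃ₗ[ℝ] V) (γ x) = x := γ.symm_apply_apply x
    rwa [h2] at this
  · intro γ' hγ'
    have h5 := hmin (γ' * γ⁻¹) (Γ.mul_mem hγ' (Γ.inv_mem hγ))
    have h6 : (γ' * γ⁻¹ : V ≃ₗ[ℝ] V) (γ x) = γ' x := by
      show γ' ((γ⁻¹ : V ≃ₗ[ℝ] V) (γ x)) = γ' x
      congr 1
      exact γ.symm_apply_apply x
    rw [h6] at h5
    exact h5

end orbit

end Pool.Agent.W539.Cone
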