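import Pool.Agent.W539.Cone.Basic

set_option autoImplicit false

namespace Pool.Agent.W539.Cone

variable {V : Type*} [NormedAddCommGroup V] [NormedSpace ℝ V]

/-- integral functionals -/
def Integral (L : AddSubgroup V) (l : V →ₗ[ℝ] ℝ) : Prop := ∀ x ∈ L, ∃ z : ℤ, l x = z

lemma exists_basis [FiniteDimensional ℝ V] {L : AddSubgroup V} (hL : IsLattice L) :
    ∃ (n : ℕ) (b : Module.Basis (Fin n) ℝ V), ∀ x, x ∈ L ↔ ∀ i, ∃ z : ℤ, b.repr x i = z := by
  have hfin : ({x : V | x ∈ L ∧ ‖x‖ ≤ 1} \ {0}).Finite := (hL.finite 1).subset Set.sdiff_subset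
  let L' : Submodule ℤ V := AddSubgroup.toIntSubmodule L
  have hopen : IsOpen ({0} : Set L') := by
    have h1 : IsOpen (Metric.ball (0 : V) 1 \ ({x : V | x ∈ L ∧ ‖x‖ ≤ 1} \ {0})) :=
      Metric.isOpen_ball.sdiff hfin.isClosed
    have h2 : ({0} : Set L') =
        Subtype.val ⁻¹' (Metric.ball (0 : V) 1 \ ({x : V | x ∈ L ∧ ‖x‖ ≤ 1} \ {0})) := by
      ext ⟨x, hx⟩
      have hx' : x ∈ L := hx
      simp only [Set.mem_singleton_iff, Set.mem_preimage, Set.mem_sdiff, Metric.mem_ball,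
        dist_zero_right]
      constructor
      · intro h
        have h0 : x = 0 := congrArg Subtype.val h
        subst h0
        simp
      · rintro ⟨h3, h4⟩
        by_contra h5
        exact h4 ⟨⟨hx', h3.le⟩, fun h6 => h5 (Subtype.ext h6)⟩
    rw [h2]
    exact h1.preimage continuous_subtype_val
  have : DiscreteTopology L' := discreteTopology_of_isOpen_singleton_zero hopen
  have : IsZLattice ℝ L' := ⟨by simpa [L'] using hL.span_top⟩
  have := ZLattice.module_free ℝ L'
  have := ZLattice.module_finite ℝ L'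
  let b0 := Module.Free.chooseBasis ℤ L'
  let b1 := b0.ofZLatticeBasis ℝ L'
  let e := Fintype.equivFin (Module.Free.ChooseBasisIndex ℤ L')
  refine ⟨_, b1.reindex e, fun x => ?_⟩
  have hsp : Submodule.span ℤ (Set.range b1) = L' := b0.ofZLatticeBasis_span ℝ L'
  have h3 : x ∈ L ↔ x ∈ Submodule.span ℤ (Set.range b1) := by rw [hsp]; rfl
  rw [h3, Module.Basis.mem_span_iff_repr_mem]
  constructor
  · intro h i
    obtain ⟨z, hz⟩ := h (e.symm i)
    exact ⟨z, by simpa using hz.symm⟩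
  · intro h i
    obtain ⟨z, hz⟩ := h (e i)
    exact ⟨z, by simpa using hz.symm⟩

/-- every point is near a lattice point -/
lemma exists_near [FiniteDimensional ℝ V] {L : AddSubgroup V} (hL : IsLattice L) :
    ∃ C : ℝ, 0 < C ∧ ∀ x : V, ∃ y ∈ L, ‖x - y‖ ≤ C := by
  obtain ⟨n, b, hb⟩ := exists_basis hL
  refine ⟨∑ i, ‖b i‖ + 1, by positivity, fun x => ⟨∑ i, (⌊b.repr x i⌋ : ℝ) • b i, ?_, ?_⟩⟩
  · rw [hb]
    intro i
    refine ⟨⌊b.repr x i⌋, ?_⟩
    simp [Finsupp.single_apply]
  · have h1 : x - ∑ i, (⌊b.repr x i⌋ : ℝ) • b i = ∑ i, (Int.fract (b.repr x i)) • b i := by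
      conv_lhs => rw [← b.sum_repr x]
      rw [← Finset.sum_sub_distrib]
      refine Finset.sum_congr rfl fun i _ => ?_
      simp only [b.sum_repr]
      rw [← sub_smul]
      rfl
    rw [h1]
    refine (norm_sum_le _ _).trans ?_
    refine le_trans (Finset.sum_le_sum fun i _ => ?_) (le_add_of_nonneg_right zero_le_one)
    rw [norm_smul, Real.norm_eq_abs, abs_of_nonneg (Int.fract_nonneg _)]
    exact mul_le_of_le_one_left (norm_nonneg _) (Int.fract_lt_one _).le

lemma smul_ball_subset {E : Set V} (hE : IsCone E) {x : V} {ε : ℝ} (hx : Metric.ball x ε ⊆ E)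
    {c : ℝ} (hc : 0 < c) : Metric.ball (c • x) (c * ε) ⊆ E := by
  intro y hy
  have h1 : c⁻¹ • y ∈ Metric.ball x ε := by
    rw [Metric.mem_ball, dist_eq_norm] at hy ⊢
    have h2 : c⁻¹ • y - x = c⁻¹ • (y - c • x) := by
      rw [smul_sub, smul_smul, inv_mul_cancel₀ hc.ne', one_smul]
    rw [h2, norm_smul, norm_inv, Real.norm_eq_abs, abs_of_pos hc]
    calc c⁻¹ * ‖y - c • x‖ < c⁻¹ * (c * ε) := by gcongr
      _ = ε := by field_simp
  have h3 := hE.smul_mem c hc.le _ (hx h1)
  rwa [smul_smul, mul_inv_cancel₀ hc.ne', one_smul] at h3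

lemma interior_smul {E : Set V} (hE : IsCone E) {x : V} (hx : x ∈ interior E) {c : ℝ}
    (hc : 0 < c) : c • x ∈ interior E := by
  obtain ⟨ε, hε, h⟩ := Metric.isOpen_iff.1 isOpen_interior x hx
  rw [mem_interior_iff_mem_nhds]
  exact Filter.mem_of_superset (Metric.ball_mem_nhds _ (mul_pos hc hε))
    (smul_ball_subset hE (h.trans interior_subset) hc)

lemma interior_add {E : Set V} (hE : IsCone E) {x y : V} (hx : x ∈ interior E) (hy : y ∈ E) :
    x + y ∈ interior E := by
  have h1 : IsOpen ((fun z => z - y) ⁻¹' interior E) :=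
    isOpen_interior.preimage (continuous_id.sub continuous_const)
  refine mem_interior.2 ⟨_, ?_, h1, ?_⟩
  · intro z hz
    have := hE.add_mem _ (interior_subset hz) y hy
    simpa using this
  · simpa using hx

lemma add_interior {E : Set V} (hE : IsCone E) {x y : V} (hx : x ∈ E) (hy : y ∈ interior E) :
    x + y ∈ interior E := by
  rw [add_comm]; exact interior_add hE hy hx

/-- interior lattice points -/
lemma exists_lattice_interior [FiniteDimensional ℝ V] {L : AddSubgroup V} (hL : IsLattice L)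
    {E : Set V} (hE : IsCone E) : ∃ y ∈ L, y ∈ interior E := by
  obtain ⟨x, hx⟩ := hE.interior_nonempty
  obtain ⟨ε, hε, h⟩ := Metric.isOpen_iff.1 isOpen_interior x hx
  obtain ⟨C, hC, hnear⟩ := exists_near hL
  have hc : 0 < (C + 1) / ε := by positivity
  obtain ⟨y, hy, hxy⟩ := hnear (((C + 1) / ε) • x)
  refine ⟨y, hy, ?_⟩
  have h2 := smul_ball_subset hE (h.trans interior_subset) hc
  have h3 : y ∈ Metric.ball (((C + 1) / ε) • x) ((C + 1) / ε * ε) := by
    rw [Metric.mem_ball, dist_comm, dist_eq_norm, div_mul_cancel₀ _ hε.ne']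
    linarith
  exact interior_maximal h2 Metric.isOpen_ball h3

/-- lattice points in the cone span: a functional or map determined by values on `L ∩ E` -/
lemma exists_basis_in_cone [FiniteDimensional ℝ V] {L : AddSubgroup V} (hL : IsLattice L)
    {E : Set V} (hE : IsCone E) : ∃ s : Finset V, (∀ v ∈ s, v ∈ L ∧ v ∈ E) ∧
      Submodule.span ℝ (s : Set V) = ⊤ := by
  classical
  obtain ⟨n, b, hb⟩ := exists_basis hL
  obtain ⟨y, hyL, hyE⟩ := exists_lattice_interior hL hE
  obtain ⟨ε, hε, h⟩ := Metric.isOpen_iff.1 isOpen_interior y hyE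
  have hbL : ∀ i, b i ∈ L := fun i => by
    rw [hb]; intro j
    refine ⟨if i = j then 1 else 0, ?_⟩
    rw [Module.Basis.repr_self, Finsupp.single_apply]
    split_ifs <;> simp
  -- choose a big multiple
  obtain ⟨N, hN⟩ : ∃ N : ℕ, 0 < N ∧ ∀ i, ‖b i‖ < N * ε := by
    obtain ⟨N, hN⟩ := exists_nat_gt ((∑ i, ‖b i‖) / ε)
    refine ⟨N + 1, Nat.succ_pos _, fun i => ?_⟩
    have h1 : ‖b i‖ ≤ ∑ i, ‖b i‖ :=
      Finset.single_le_sum (f := fun i => ‖b i‖) (fun _ _ => norm_nonneg _) (Finset.mem_univ i)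
    rw [div_lt_iff₀ hε] at hN
    push_cast
    nlinarith
  refine ⟨insert y (Finset.univ.image fun i => (N : ℝ) • y + b i), ?_, ?_⟩
  · intro v hv
    rcases Finset.mem_insert.1 hv with rfl | hv
    · exact ⟨hyL, interior_subset hyE⟩
    · obtain ⟨i, -, rfl⟩ := Finset.mem_image.1 hv
      constructor
      · refine L.add_mem ?_ (hbL i)
        rw [Nat.cast_smul_eq_nsmul]
        exact L.nsmul_mem hyL N
      · have hN0 : (0 : ℝ) < N := by exact_mod_cast hN.1
        refine smul_ball_subset hE (h.trans interior_subset) hN0 ?_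
        rw [Metric.mem_ball, dist_eq_norm, add_sub_cancel_left]
        exact hN.2 i
  · rw [eq_top_iff, ← b.span_eq, Submodule.span_le]
    rintro _ ⟨i, rfl⟩
    have h1 : (N : ℝ) • y + b i ∈ Submodule.span ℝ
        ((insert y (Finset.univ.image fun i => (N : ℝ) • y + b i) : Finset V) : Set V) := by
      apply Submodule.subset_span
      simp
    have h2 : y ∈ Submodule.span ℝ
        ((insert y (Finset.univ.image fun i => (N : ℝ) • y + b i) : Finset V) : Set V) := by
      apply Submodule.subset_span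
      simp
    have h3 := Submodule.sub_mem _ h1 (Submodule.smul_mem _ (N : ℝ) h2)
    simpa using h3

/-- F1: finitely many integral functionals, nonnegative on the cone, bounded at an interior
point. -/
lemma finite_bounded [FiniteDimensional ℝ V] {L : AddSubgroup V} (hL : IsLattice L)
    {E : Set V} {x : V} (hx : x ∈ interior E) (M : ℝ) :
    {l : V →ₗ[ℝ] ℝ | Integral L l ∧ (∀ y ∈ E, 0 ≤ l y) ∧ l x ≤ M}.Finite := by
  obtain ⟨n, b, hb⟩ := exists_basis hL
  obtain ⟨ε, hε, h⟩ := Metric.isOpen_iff.1 isOpen_interior x hx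
  have hbL : ∀ i, b i ∈ L := fun i => by
    rw [hb]; intro j
    refine ⟨if i = j then 1 else 0, ?_⟩
    rw [Module.Basis.repr_self, Finsupp.single_apply]
    split_ifs <;> simp
  have key : ∀ l : V →ₗ[ℝ] ℝ, (∀ y ∈ E, 0 ≤ l y) → l x ≤ M →
      ∀ i, |l (b i)| ≤ M * (‖b i‖ + 1) * (2 / ε) := by
    intro l hl hM i
    have hc : 0 < ε / 2 / (‖b i‖ + 1) := by positivity
    have h1 : ∀ t : ℝ, |t| ≤ ε / 2 / (‖b i‖ + 1) → 0 ≤ l x + t * l (b i) := by
      intro t ht
      have h2 : x + t • b i ∈ E := by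
        apply interior_subset
        apply h
        rw [Metric.mem_ball, dist_eq_norm, add_sub_cancel_left, norm_smul, Real.norm_eq_abs]
        have h3 : |t| * (‖b i‖ + 1) ≤ ε / 2 := by
          rwa [le_div_iff₀ (by positivity)] at ht
        nlinarith [abs_nonneg t]
      have := hl _ h2
      rwa [map_add, map_smul, smul_eq_mul] at this
    have h4 := h1 (ε / 2 / (‖b i‖ + 1)) (by rw [abs_of_pos hc])
    have h5 := h1 (-(ε / 2 / (‖b i‖ + 1))) (by rw [abs_neg, abs_of_pos hc])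
    have h6 : |l (b i)| * (ε / 2 / (‖b i‖ + 1)) ≤ M := by
      rcases abs_cases (l (b i)) with ⟨h7, _⟩ | ⟨h7, _⟩ <;> rw [h7] <;> nlinarith
    have h7 : |l (b i)| ≤ M / (ε / 2 / (‖b i‖ + 1)) := by
      rwa [le_div_iff₀ hc]
    refine h7.trans (le_of_eq ?_)
    field_simp
  have hfin : (Set.pi Set.univ fun i : Fin n =>
      {r : ℝ | (∃ z : ℤ, r = z) ∧ |r| ≤ M * (‖b i‖ + 1) * (2 / ε)}).Finite := by
    refine Set.Finite.pi fun i => ?_
    set R := M * (‖b i‖ + 1) * (2 / ε)
    refine Set.Finite.subset ((Set.finite_Icc (-⌈R⌉) ⌈R⌉).image fun z : ℤ => (z : ℝ)) ?_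
    rintro r ⟨⟨z, rfl⟩, hz⟩
    refine ⟨z, ?_, rfl⟩
    rw [abs_le] at hz
    constructor
    · have : (-⌈R⌉ : ℝ) ≤ z := by
        have := Int.le_ceil R
        linarith [hz.1]
      exact_mod_cast this
    · have : (z : ℝ) ≤ ⌈R⌉ := by
        have := Int.le_ceil R
        linarith [hz.2]
      exact_mod_cast this
  refine Set.Finite.of_finite_image (f := fun (l : V →ₗ[ℝ] ℝ) (i : Fin n) => l (b i))
    (hfin.subset ?_) ?_
  · rintro _ ⟨l, ⟨h1, h2, h3⟩, rfl⟩ i -
    exact ⟨h1 _ (hbL i), key l h2 h3 i⟩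
  · intro l _ l' _ hll
    exact b.ext fun i => congrFun hll i

/-- `l` is positive on the closed cone -/
def Pos (E : Set V) (l : V →ₗ[ℝ] ℝ) : Prop := ∀ x ∈ closure E, x ≠ 0 → 0 < l x

lemma Pos.nonneg {E : Set V} {l : V →ₗ[ℝ] ℝ} (h : Pos E l) {x : V} (hx : x ∈ closure E) :
    0 ≤ l x := by
  by_cases h0 : x = 0
  · simp [h0]
  · exact (h x hx h0).le

lemma closure_smul_mem {E : Set V} (hE : IsCone E) {x : V} (hx : x ∈ closure E) {c : ℝ}
    (hc : 0 ≤ c) : c • x ∈ closure E :=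
  map_mem_closure (continuous_const_smul c) hx fun y hy => hE.smul_mem c hc y hy

lemma closure_add_mem {E : Set V} (hE : IsCone E) {x y : V} (hx : x ∈ closure E)
    (hy : y ∈ closure E) : x + y ∈ closure E :=
  map_mem_closure₂ continuous_add hx hy fun a ha b hb => hE.add_mem a ha b hb

/-- uniform positivity -/
lemma Pos.bound [FiniteDimensional ℝ V] {E : Set V} (hE : IsCone E) {l : V →ₗ[ℝ] ℝ}
    (h : Pos E l) : ∃ δ : ℝ, 0 < δ ∧ ∀ x ∈ closure E, δ * ‖x‖ ≤ l x := by
  have hcomp : IsCompact (Metric.sphere (0 : V) 1 ∩ closure E) :=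
    (isCompact_sphere 0 1).inter_right isClosed_closure
  have hcont : Continuous l := l.continuous_of_finiteDimensional
  rcases (Metric.sphere (0 : V) 1 ∩ closure E).eq_empty_or_nonempty with he | hne
  · refine ⟨1, one_pos, fun x hx => ?_⟩
    by_cases h0 : x = 0
    · simp [h0]
    · exfalso
      have h1 : ‖x‖⁻¹ • x ∈ Metric.sphere (0 : V) 1 ∩ closure E := by
        refine ⟨?_, closure_smul_mem hE hx (by positivity)⟩
        rw [mem_sphere_zero_iff_norm, norm_smul, norm_inv, norm_norm, inv_mul_cancel₀]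
        exact norm_ne_zero_iff.2 h0
      rw [he] at h1
      exact h1
  · obtain ⟨x0, hx0, hmin⟩ := hcomp.exists_isMinOn hne hcont.continuousOn
    have hx0' : x0 ≠ 0 := by
      rintro rfl
      simpa using hx0.1
    refine ⟨l x0, h x0 hx0.2 hx0', fun x hx => ?_⟩
    by_cases hz : x = 0
    · simp [hz]
    · have hn : 0 < ‖x‖ := norm_pos_iff.2 hz
      have h1 : ‖x‖⁻¹ • x ∈ Metric.sphere (0 : V) 1 ∩ closure E := by
        refine ⟨?_, closure_smul_mem hE hx (by positivity)⟩
        rw [mem_sphere_zero_iff_norm, norm_smul, norm_inv, norm_norm, inv_mul_cancel₀]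
        exact norm_ne_zero_iff.2 hz
      have h2 : l x0 ≤ l (‖x‖⁻¹ • x) := hmin h1
      rw [map_smul, smul_eq_mul] at h2
      calc l x0 * ‖x‖ ≤ ‖x‖⁻¹ * l x * ‖x‖ := by gcongr
        _ = l x := by field_simp

end Pool.Agent.W539.Cone
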