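import Pool.Agent.W539.Cone.Chambers

set_option autoImplicit false

namespace Pool.Agent.W539.Cone

/-- `F` is a face of the convex cone `E`. -/
structure IsFace {V : Type} [NormedAddCommGroup V] [NormedSpace ℝ V] (E F : Set V) : Prop where
  sub : F ⊆ E
  zero : (0 : V) ∈ F
  add : ∀ x ∈ F, ∀ y ∈ F, x + y ∈ F
  smul : ∀ c : ℝ, 0 ≤ c → ∀ x ∈ F, c • x ∈ F
  face : ∀ x ∈ E, ∀ y ∈ E, x + y ∈ F → x ∈ F

/-- `Q` is the base of `R` along the face `F`: it lives on a subspace `W`, its cone is `F`, and, up to a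
finite set of cosets, its group contains the restrictions of the stabiliser of `F`. -/
def IsBase {V : Type} [NormedAddCommGroup V] [NormedSpace ℝ V] (R : ConeRep V) (F : Set V)
    {W : Submodule ℝ V} (Q : ConeRep W) : Prop :=
  (∀ x, x ∈ Q.L ↔ (x : V) ∈ R.L) ∧ (∀ x : V, x ∈ F ↔ ∃ h : x ∈ W, (⟨x, h⟩ : W) ∈ Q.E) ∧
    ∃ T : Set (V ≃ₗ[ℝ] V), T.Finite ∧ T ⊆ stabIn R.Γ F ∧ ∀ γ ∈ stabIn R.Γ F, ∃ t ∈ T, ∃ γ' ∈ Q.Γ,
      ∀ x : W, (γ' x : V) = (t⁻¹ * γ) x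

/-- `Q` is the link of `R` along the face `F`: `p` vanishes on `F`, lattice and cone of `Q` are the
images of lattice and cone of `R`, and, up to a finite set of cosets, its group contains the
transformations induced by the stabiliser of `F`. -/
def IsLink {V U : Type} [NormedAddCommGroup V] [NormedSpace ℝ V] [NormedAddCommGroup U]
    [NormedSpace ℝ U] (R : ConeRep V) (F : Set V) (p : V →ₗ[ℝ] U) (Q : ConeRep U) : Prop :=
  (∀ x ∈ F, p x = 0) ∧ (∀ y, y ∈ Q.L ↔ ∃ x ∈ R.L, p x = y) ∧ (∀ y, y ∈ Q.E ↔ ∃ x ∈ R.E, p x = y) ∧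
    ∃ T : Set (V ≃ₗ[ℝ] V), T.Finite ∧ T ⊆ stabIn R.Γ F ∧ ∀ γ ∈ stabIn R.Γ F, ∃ t ∈ T, ∃ γ' ∈ Q.Γ,
      ∀ x, γ' (p x) = p ((t⁻¹ * γ) x)

section

variable {V : Type} [NormedAddCommGroup V] [NormedSpace ℝ V]

/-- relative interior points of a face -/
def RelInt (F : Set V) (w : V) : Prop := w ∈ F ∧ ∀ y ∈ F, ∃ ε : ℝ, 0 < ε ∧ w - ε • y ∈ F

lemma IsFace.sum_mem {E F : Set V} (h : IsFace E F) {ι : Type*} (J : Finset ι) (f : ι → V)
    (hf : ∀ i ∈ J, f i ∈ F) : ∑ i ∈ J, f i ∈ F := by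
  classical
  induction J using Finset.induction_on with
  | empty => simpa using h.zero
  | insert a J ha ih =>
    rw [Finset.sum_insert ha]
    exact h.add _ (hf a (Finset.mem_insert_self a J)) _
      (ih fun i hi => hf i (Finset.mem_insert_of_mem hi))

lemma exists_relInt [FiniteDimensional ℝ V] {E F : Set V} (h : IsFace E F) :
    ∃ w, RelInt F w := by
  classical
  obtain ⟨b, hb, hspan, hli⟩ := exists_linearIndependent ℝ F
  have hfin : b.Finite := hli.setFinite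
  let J := hfin.toFinset
  have hJ : ∀ v ∈ J, v ∈ F := fun v hv => hb ((Set.Finite.mem_toFinset _).1 hv)
  refine ⟨∑ v ∈ J, v, h.sum_mem _ _ hJ, fun y hy => ?_⟩
  have hy' : y ∈ Submodule.span ℝ (J : Set V) := by
    have : (J : Set V) = b := by simp [J]
    rw [this, hspan]
    exact Submodule.subset_span hy
  rw [Submodule.mem_span_finset] at hy'
  obtain ⟨c, -, rfl⟩ := hy'
  have hpos : 0 < ∑ v ∈ J, |c v| + 1 := by positivity
  refine ⟨(∑ v ∈ J, |c v| + 1)⁻¹, inv_pos.2 hpos, ?_⟩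
  rw [Finset.smul_sum, ← Finset.sum_sub_distrib]
  refine h.sum_mem _ _ fun v hv => ?_
  have e : v - (∑ v ∈ J, |c v| + 1)⁻¹ • c v • v = (1 - (∑ v ∈ J, |c v| + 1)⁻¹ * c v) • v := by
    module
  rw [e]
  refine h.smul _ ?_ _ (hJ v hv)
  have h1 : |c v| ≤ ∑ v ∈ J, |c v| := Finset.single_le_sum (f := fun v => |c v|)
    (fun _ _ => abs_nonneg _) hv
  rw [sub_nonneg, inv_mul_le_iff₀ hpos, mul_one]
  linarith [le_abs_self (c v)]

/-- If `γ w` lies in the cone spanned by `π` then it lies in the cone spanned by the elements of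
`π` in the face `γ F`. -/
lemma mem_cone_face {E F : Set V} (hE : IsCone E) (h : IsFace E F) {s : Finset V}
    (hs : ∀ v ∈ s, v ∈ E) {w : V} (hw : w ∈ F) (hws : w ∈ cone (s : Set V)) :
    w ∈ cone ({v | v ∈ s ∧ v ∈ F} : Set V) := by
  classical
  obtain ⟨t, ht, rfl⟩ := mem_cone.1 hws
  have hmem : ∀ v ∈ s, 0 < t v → v ∈ F := by
    intro v hv htv
    have h1 : t v • v + ∑ u ∈ s.erase v, t u • u ∈ F := by
      rw [Finset.add_sum_erase s (fun u => t u • u) hv]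
      exact hw
    have h2 : t v • v ∈ F := h.face _ (hE.smul_mem _ htv.le _ (hs v hv)) _
      (hE.sum_mem _ _ fun u hu => hE.smul_mem _ (ht u (Finset.mem_of_mem_erase hu)) _
        (hs u (Finset.mem_of_mem_erase hu))) h1
    have h3 := h.smul (t v)⁻¹ (inv_nonneg.2 htv.le) _ h2
    rwa [smul_smul, inv_mul_cancel₀ htv.ne', one_smul] at h3
  refine cone_sum fun v hv => ?_
  rcases eq_or_lt_of_le (ht v hv) with h0 | h0
  · rw [← h0, zero_smul]
    exact cone_zero _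
  · exact cone_smul h0.le (subset_cone _ ⟨hv, hmem v hv h0⟩)

lemma face_cone_subset {E F : Set V} (h : IsFace E F) {A : Set V} (hA : A ⊆ F) : cone A ⊆ F := by
  intro x hx
  refine Submodule.span_induction (p := fun x _ => x ∈ F) (fun x hx => hA hx) h.zero
    (fun x y _ _ hx hy => h.add x hx y hy) (fun a x _ hx => ?_) hx
  exact h.smul (a : ℝ) a.2 x hx

/-- A face containing a relative interior point of another face contains this face. -/
lemma face_subset {E F F' : Set V} (h : IsFace E F) (h' : IsFace E F') {w : V} (hw : RelInt F w)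
    (hw' : w ∈ F') : F ⊆ F' := by
  intro y hy
  obtain ⟨ε, hε, h1⟩ := hw.2 y hy
  have h2 : ε • y ∈ F' := by
    refine h'.face (ε • y) (h.sub (h.smul ε hε.le y hy)) (w - ε • y) (h.sub h1) ?_
    rw [add_sub_cancel]
    exact hw'
  have h3 := h'.smul ε⁻¹ (inv_nonneg.2 hε.le) _ h2
  rwa [smul_smul, inv_mul_cancel₀ hε.ne', one_smul] at h3

lemma image_face {E F : Set V} (_hE : IsCone E) (h : IsFace E F) {Γ : Subgroup (V ≃ₗ[ℝ] V)}
    (hΓ : Preserves Γ E) {γ : V ≃ₗ[ℝ] V} (hγ : γ ∈ Γ) : IsFace E (γ '' F) := by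
  refine ⟨?_, ?_, ?_, ?_, ?_⟩
  · rintro _ ⟨x, hx, rfl⟩
    exact hΓ γ hγ _ (h.sub hx)
  · exact ⟨0, h.zero, map_zero γ⟩
  · rintro _ ⟨x, hx, rfl⟩ _ ⟨y, hy, rfl⟩
    exact ⟨x + y, h.add x hx y hy, map_add γ x y⟩
  · rintro c hc _ ⟨x, hx, rfl⟩
    exact ⟨c • x, h.smul c hc x hx, map_smul γ c x⟩
  · rintro x hx y hy ⟨z, hz, hzxy⟩
    refine ⟨(γ⁻¹ : V ≃ₗ[ℝ] V) x, ?_, γ.apply_symm_apply x⟩
    refine h.face _ (hΓ _ (Γ.inv_mem hγ) x hx) ((γ⁻¹ : V ≃ₗ[ℝ] V) y)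
      (hΓ _ (Γ.inv_mem hγ) y hy) ?_
    rw [← map_add, ← hzxy]
    have : (γ⁻¹ : V ≃ₗ[ℝ] V) (γ z) = z := γ.symm_apply_apply z
    rw [this]
    exact hz

lemma image_relInt {F : Set V} {γ : V ≃ₗ[ℝ] V} {w : V} (hw : RelInt F w) :
    RelInt (γ '' F) (γ w) := by
  refine ⟨⟨w, hw.1, rfl⟩, ?_⟩
  rintro _ ⟨y, hy, rfl⟩
  obtain ⟨ε, hε, h1⟩ := hw.2 y hy
  exact ⟨ε, hε, w - ε • y, h1, by rw [map_sub, map_smul]⟩

/-- Finitely many coset representatives modulo the stabiliser of `F` for the elements of `Γ` which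
move a relative interior point of `F` into a given rational polyhedral cone. -/
theorem face_reps {E F : Set V} (hE : IsCone E) (h : IsFace E F) {Γ : Subgroup (V ≃ₗ[ℝ] V)}
    (hΓ : Preserves Γ E) {s : Finset V} (hs : ∀ v ∈ s, v ∈ E) :
    ∃ R : Finset (V ≃ₗ[ℝ] V), (∀ ρ ∈ R, ρ ∈ Γ) ∧ ∀ γ ∈ Γ, ∀ w, RelInt F w →
      γ w ∈ cone (s : Set V) → ∃ ρ ∈ R, ρ⁻¹ * γ ∈ stabIn Γ F := by
  classical
  let 𝒢 : Set (V ≃ₗ[ℝ] V) := {γ | γ ∈ Γ ∧ ∃ w, RelInt F w ∧ γ w ∈ cone (s : Set V)}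
  let Φ : (V ≃ₗ[ℝ] V) → Finset V := fun γ => s.filter fun v => v ∈ γ '' F
  have hfin : (Φ '' 𝒢).Finite := by
    refine (s.powerset.finite_toSet).subset ?_
    rintro _ ⟨γ, -, rfl⟩
    exact Finset.mem_coe.2 (Finset.mem_powerset.2 (Finset.filter_subset _ _))
  have hsub : ∀ γ ∈ 𝒢, ∀ δ ∈ Γ, Φ γ = Φ δ → γ '' F ⊆ δ '' F := by
    rintro γ ⟨hγ, w, hw, hws⟩ δ hδ hΦ
    have hγF := image_face hE h hΓ hγ
    have hδF := image_face hE h hΓ hδ
    refine face_subset hγF hδF (image_relInt hw) ?_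
    have h1 := mem_cone_face hE hγF hs ⟨w, hw.1, rfl⟩ hws
    refine face_cone_subset hδF ?_ h1
    rintro v ⟨hv, hvF⟩
    have h2 : v ∈ Φ γ := Finset.mem_filter.2 ⟨hv, hvF⟩
    rw [hΦ] at h2
    exact (Finset.mem_filter.1 h2).2
  refine ⟨hfin.toFinset.image (Function.invFunOn Φ 𝒢), ?_, ?_⟩
  · intro ρ hρ
    obtain ⟨f, hf, rfl⟩ := Finset.mem_image.1 hρ
    have hf' : f ∈ Φ '' 𝒢 := (Set.Finite.mem_toFinset hfin).1 hf
    have h1 : Function.invFunOn Φ 𝒢 f ∈ 𝒢 := Function.invFunOn_mem hf'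
    exact h1.1
  · intro γ hγ w hw hws
    have hmem : Φ γ ∈ Φ '' 𝒢 := ⟨γ, ⟨hγ, w, hw, hws⟩, rfl⟩
    have h1 : Function.invFunOn Φ 𝒢 (Φ γ) ∈ 𝒢 := Function.invFunOn_mem hmem
    have h2 : Φ (Function.invFunOn Φ 𝒢 (Φ γ)) = Φ γ := Function.invFunOn_eq hmem
    set ρ := Function.invFunOn Φ 𝒢 (Φ γ) with hρ
    refine ⟨ρ, Finset.mem_image.2 ⟨Φ γ, (Set.Finite.mem_toFinset _).2 hmem, rfl⟩, ?_, ?_⟩
    · exact Γ.mul_mem (Γ.inv_mem h1.1) hγ
    · have h3 : γ '' F = ρ '' F := Set.Subset.antisymm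
        (hsub γ ⟨hγ, w, hw, hws⟩ ρ h1.1 h2.symm) (hsub ρ h1 γ hγ h2)
      rw [image_mul, h3]
      exact image_inv ρ F

end

/-- The base of a good cone is good. -/
theorem base_good {V : Type} [NormedAddCommGroup V] [NormedSpace ℝ V] [FiniteDimensional ℝ V]
    (R : ConeRep V) (hR : R.Good) {F : Set V} (hF : IsFace R.E F) {W : Submodule ℝ V}
    (Q : ConeRep W) (hQ : IsBase R F Q) : Q.Good := by
  classical
  obtain ⟨hL, hFE, T, hTfin, hTF, hT⟩ := hQ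
  obtain ⟨s, hs, hcov⟩ := weak_of_dom hR
  obtain ⟨ℛ, hℛΓ, hℛ⟩ := face_reps R.cone hF R.presE (s := s) (fun v hv => (hs v hv).2)
  have hFW : ∀ x ∈ F, x ∈ W := fun x hx => ((hFE x).1 hx).1
  have hEF : ∀ x : W, x ∈ Q.E ↔ (x : V) ∈ F := by
    intro x
    rw [hFE]
    exact ⟨fun h => ⟨x.2, h⟩, fun ⟨_, h⟩ => h⟩
  -- generators of the pulled back faces
  have hgen : ∀ γ ∈ R.Γ, ∃ t : Finset W, (∀ v ∈ t, v ∈ Q.L ∧ v ∈ Q.E) ∧
      ∀ x : W, x ∈ Q.E → γ x ∈ cone (s : Set V) → x ∈ cone (t : Set W) := by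
    intro γ hγ
    have hmem : ∀ v : {v // v ∈ s.filter fun v => v ∈ γ '' F},
        (γ⁻¹ : V ≃ₗ[ℝ] V) v.1 ∈ F := by
      rintro ⟨v, hv⟩
      obtain ⟨y, hy, hyv⟩ := (Finset.mem_filter.1 hv).2
      have : (γ⁻¹ : V ≃ₗ[ℝ] V) (γ y) = y := γ.symm_apply_apply y
      show (γ⁻¹ : V ≃ₗ[ℝ] V) v ∈ F
      rw [← hyv, this]
      exact hy
    refine ⟨(s.filter fun v => v ∈ γ '' F).attach.image fun v =>
      (⟨(γ⁻¹ : V ≃ₗ[ℝ] V) v.1, hFW _ (hmem v)⟩ : W), ?_, ?_⟩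
    · intro w hw
      obtain ⟨v, -, rfl⟩ := Finset.mem_image.1 hw
      refine ⟨(hL _).2 (R.presL _ (R.Γ.inv_mem hγ) _ (hs v.1 (Finset.mem_filter.1 v.2).1).1), ?_⟩
      rw [hEF]
      exact hmem v
    · intro x hx hγx
      have h1 := mem_cone_face R.cone (image_face R.cone hF R.presE hγ) (fun v hv => (hs v hv).2)
        ⟨(x : V), (hEF x).1 hx, rfl⟩ hγx
      have h2 : (x : V) ∈ (γ⁻¹ : V ≃ₗ[ℝ] V) '' cone ({v | v ∈ s ∧ v ∈ γ '' F} : Set V) :=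
        ⟨_, h1, γ.symm_apply_apply _⟩
      rw [image_cone_equiv] at h2
      have h3 : W.subtype '' cone (((s.filter fun v => v ∈ γ '' F).attach.image fun v =>
          (⟨(γ⁻¹ : V ≃ₗ[ℝ] V) v.1, hFW _ (hmem v)⟩ : W) : Finset W) : Set W) =
          cone ((γ⁻¹ : V ≃ₗ[ℝ] V) '' {v | v ∈ s ∧ v ∈ γ '' F}) := by
        rw [image_cone]
        congr 1
        ext z
        constructor
        · rintro ⟨w, hw, rfl⟩
          obtain ⟨v, -, rfl⟩ := Finset.mem_image.1 (Finset.mem_coe.1 hw)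
          exact ⟨v.1, Finset.mem_filter.1 v.2, rfl⟩
        · rintro ⟨v, hv, rfl⟩
          have hv' : v ∈ s.filter fun v => v ∈ γ '' F := Finset.mem_filter.2 hv
          exact ⟨⟨(γ⁻¹ : V ≃ₗ[ℝ] V) v, hFW _ (hmem ⟨v, hv'⟩)⟩, Finset.mem_coe.2
            (Finset.mem_image.2 ⟨⟨v, hv'⟩, Finset.mem_attach _ _, rfl⟩), rfl⟩
      rw [← h3] at h2
      obtain ⟨y, hy, hyx⟩ := h2
      have : y = x := Subtype.ext hyx
      rwa [this] at hy
  choose! t ht htc using hgen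
  let sW : Finset W := (ℛ ×ˢ hTfin.toFinset).biUnion fun q => t (q.1 * q.2)
  have hprod : ∀ ρ ∈ ℛ, ∀ τ ∈ T, ρ * τ ∈ R.Γ := fun ρ hρ τ hτ =>
    R.Γ.mul_mem (hℛΓ ρ hρ) (hTF hτ).1
  refine exact_of_weak Q.lattice Q.cone Q.presL Q.presE (s₀ := sW) ?_ ?_ ?_
  · intro v hv
    obtain ⟨q, hq, hv⟩ := Finset.mem_biUnion.1 hv
    obtain ⟨h1, h2⟩ := Finset.mem_product.1 hq
    exact ht _ (hprod _ h1 _ ((Set.Finite.mem_toFinset _).1 h2)) v hv
  · intro x hx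
    have hxF : (x : V) ∈ F := (hEF x).1 (interior_subset hx)
    have hrel : RelInt F (x : V) := by
      refine ⟨hxF, fun y hy => ?_⟩
      obtain ⟨ε, hε, hb⟩ := Metric.isOpen_iff.1 isOpen_interior x hx
      have hc : 0 < ε / 2 / (‖y‖ + 1) := by positivity
      refine ⟨_, hc, ?_⟩
      have h1 : x - (ε / 2 / (‖y‖ + 1)) • (⟨y, hFW y hy⟩ : W) ∈ Q.E := by
        apply interior_subset
        apply hb
        rw [Metric.mem_ball, dist_eq_norm, sub_sub_cancel_left, norm_neg, norm_smul,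
          Real.norm_eq_abs, abs_of_pos hc]
        have h2 : ε / 2 / (‖y‖ + 1) * (‖y‖ + 1) = ε / 2 := by field_simp
        have h3 : ‖(⟨y, hFW y hy⟩ : W)‖ = ‖y‖ := rfl
        rw [h3]
        nlinarith [norm_nonneg y]
      exact (hEF _).1 h1
    obtain ⟨γ, hγ, hγx⟩ := hcov (x : V) (hF.sub hxF)
    obtain ⟨ρ, hρ, hstab⟩ := hℛ γ hγ x hrel hγx
    obtain ⟨τ, hτ, γ', hγ', hres⟩ := hT _ hstab
    refine ⟨γ', hγ', ?_⟩
    have h1 : (ρ * τ) (γ' x : V) ∈ cone (s : Set V) := by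
      rw [hres]
      have : (ρ * τ) ((τ⁻¹ * (ρ⁻¹ * γ)) (x : V)) = (ρ * τ * (τ⁻¹ * (ρ⁻¹ * γ))) (x : V) := rfl
      rw [this]
      have h2 : ρ * τ * (τ⁻¹ * (ρ⁻¹ * γ)) = γ := by group
      rw [h2]
      exact hγx
    have h3 := htc _ (hprod ρ hρ τ hτ) (γ' x) (Q.presE γ' hγ' x (interior_subset hx)) h1
    refine cone_mono ?_ h3
    intro v hv
    exact Finset.mem_coe.2 (Finset.mem_biUnion.2 ⟨(ρ, τ), Finset.mem_product.2
      ⟨hρ, (Set.Finite.mem_toFinset _).2 hτ⟩, hv⟩)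
  · intro x hx
    obtain ⟨γ, hγ, hγx⟩ := hcov (x : V) (hF.sub ((hEF x).1 hx))
    exact ⟨t γ, ht γ hγ, htc γ hγ x hx hγx⟩

/-- The link of a good cone is good. -/
theorem link_good {V U : Type} [NormedAddCommGroup V] [NormedSpace ℝ V] [FiniteDimensional ℝ V]
    [NormedAddCommGroup U] [NormedSpace ℝ U] [FiniteDimensional ℝ U]
    (R : ConeRep V) (hR : R.Good) {F : Set V} (hF : IsFace R.E F) (p : V →ₗ[ℝ] U)
    (Q : ConeRep U) (hQ : IsLink R F p Q) : Q.Good := by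
  classical
  obtain ⟨hpF, hL, hE, T, hTfin, hTF, hT⟩ := hQ
  obtain ⟨s, hs, hcov⟩ := weak_of_dom hR
  obtain ⟨ℛ, hℛΓ, hℛ⟩ := face_reps R.cone hF R.presE (s := s) (fun v hv => (hs v hv).2)
  obtain ⟨w, hw⟩ := exists_relInt hF
  obtain ⟨ξ, hξL, hξE⟩ := exists_integral_pos R.lattice R.cone
  have hclosed : IsClosed (cone (s : Set V)) := cone_isClosed R.cone fun v hv => (hs v hv).2
  have hprod : ∀ ρ ∈ ℛ, ∀ τ ∈ T, ρ * τ ∈ R.Γ := fun ρ hρ τ hτ =>
    R.Γ.mul_mem (hℛΓ ρ hρ) (hTF hτ).1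
  have hrat : ∀ x ∈ R.E, ∃ f : Finset V, (∀ v ∈ f, v ∈ R.L ∧ v ∈ R.E) ∧ x ∈ cone (f : Set V) := by
    intro x hx
    obtain ⟨γ, hγ, hγx⟩ := hcov x hx
    refine ⟨s.image fun v => (γ⁻¹ : V ≃ₗ[ℝ] V) v, ?_, ?_⟩
    · intro v hv
      obtain ⟨u, hu, rfl⟩ := Finset.mem_image.1 hv
      exact ⟨R.presL _ (R.Γ.inv_mem hγ) _ (hs u hu).1, R.presE _ (R.Γ.inv_mem hγ) _ (hs u hu).2⟩
    · have h1 : x ∈ (γ⁻¹ : V ≃ₗ[ℝ] V) '' cone (s : Set V) := ⟨γ x, hγx, γ.symm_apply_apply x⟩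
      rw [image_cone_equiv] at h1
      rw [Finset.coe_image]
      exact h1
  have hpim : ∀ γ ∈ R.Γ, ∀ x, γ x ∈ cone (s : Set V) →
      p x ∈ cone ((s.image fun v => p ((γ⁻¹ : V ≃ₗ[ℝ] V) v) : Finset U) : Set U) := by
    intro γ hγ x hγx
    have h1 : p x ∈ (p.comp ((γ⁻¹ : V ≃ₗ[ℝ] V) : V →ₗ[ℝ] V)) '' cone (s : Set V) :=
      ⟨γ x, hγx, congrArg p (γ.symm_apply_apply x)⟩
    rw [image_cone] at h1
    rw [Finset.coe_image]
    exact h1
  let sU : Finset U := (ℛ ×ˢ hTfin.toFinset).biUnion fun q =>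
    s.image fun v => p (((q.1 * q.2)⁻¹ : V ≃ₗ[ℝ] V) v)
  refine exact_of_weak Q.lattice Q.cone Q.presL Q.presE (s₀ := sU) ?_ ?_ ?_
  · intro v hv
    obtain ⟨q, hq, hv⟩ := Finset.mem_biUnion.1 hv
    obtain ⟨u, hu, rfl⟩ := Finset.mem_image.1 hv
    obtain ⟨h1, h2⟩ := Finset.mem_product.1 hq
    have h3 := R.Γ.inv_mem (hprod _ h1 _ ((Set.Finite.mem_toFinset _).1 h2))
    exact ⟨(hL _).2 ⟨_, R.presL _ h3 _ (hs u hu).1, rfl⟩,
      (hE _).2 ⟨_, R.presE _ h3 _ (hs u hu).2, rfl⟩⟩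
  · intro y hy
    -- lift to an interior point
    obtain ⟨x, hxE, hxy⟩ : ∃ x ∈ interior R.E, p x = y := by
      obtain ⟨z, hz⟩ := R.cone.interior_nonempty
      obtain ⟨ε, hε, hb⟩ := Metric.isOpen_iff.1 isOpen_interior y hy
      have hc : 0 < ε / 2 / (‖p z‖ + 1) := by positivity
      have h1 : y - (ε / 2 / (‖p z‖ + 1)) • p z ∈ Q.E := by
        apply interior_subset
        apply hb
        rw [Metric.mem_ball, dist_eq_norm, sub_sub_cancel_left, norm_neg, norm_smul,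
          Real.norm_eq_abs, abs_of_pos hc]
        have h2 : ε / 2 / (‖p z‖ + 1) * (‖p z‖ + 1) = ε / 2 := by field_simp
        nlinarith [norm_nonneg (p z)]
      obtain ⟨e, he, hpe⟩ := (hE _).1 h1
      refine ⟨e + (ε / 2 / (‖p z‖ + 1)) • z, add_interior R.cone he
        (interior_smul R.cone hz hc), ?_⟩
      rw [map_add, map_smul, hpe, sub_add_cancel]
    -- the rational polyhedral cone containing the ray
    obtain ⟨f1, hf1, hxf⟩ := hrat x (interior_subset hxE)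
    obtain ⟨f2, hf2, hwf⟩ := hrat w (hF.sub hw.1)
    have hf12 : ∀ v ∈ f1 ∪ f2, v ∈ R.L ∧ v ∈ R.E := by
      intro v hv
      rcases Finset.mem_union.1 hv with h | h
      · exact hf1 v h
      · exact hf2 v h
    have hK := siegel R.lattice R.cone R.presL R.presE hξL hξE hf12 hs
    set K := {γ : V ≃ₗ[ℝ] V | γ ∈ R.Γ ∧ ∃ x ∈ cone ((f1 ∪ f2 : Finset V) : Set V),
      γ x ∈ cone (s : Set V) ∧ γ x ∈ interior R.E} with hKdef
    have hint : ∀ n : ℕ, x + (n : ℝ) • w ∈ interior R.E := fun n =>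
      interior_add R.cone hxE (R.cone.smul_mem _ (Nat.cast_nonneg n) _ (hF.sub hw.1))
    choose g hg hgs using fun n : ℕ => hcov (x + (n : ℝ) • w) (interior_subset (hint n))
    have hgK : ∀ n, g n ∈ K := by
      intro n
      refine ⟨hg n, _, ?_, hgs n, interior_map R.presE (hg n) (hint n)⟩
      refine cone_add (cone_mono ?_ hxf) (cone_smul (Nat.cast_nonneg n) (cone_mono ?_ hwf))
      · intro v hv
        exact Finset.mem_coe.2 (Finset.mem_union_left _ hv)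
      · intro v hv
        exact Finset.mem_coe.2 (Finset.mem_union_right _ hv)
    -- some element of `K` occurs for arbitrarily large `n`
    obtain ⟨γ, hγK, hγw, n, hn⟩ : ∃ γ ∈ K, γ w ∈ cone (s : Set V) ∧ ∃ n : ℕ,
        γ (x + (n : ℝ) • w) ∈ cone (s : Set V) := by
      by_contra hcon
      push Not at hcon
      -- those `γ ∈ K` with `γ w` not in the cone occur only finitely often
      have hev : ∀ γ ∈ K, ∀ᶠ n : ℕ in Filter.atTop, γ (x + (n : ℝ) • w) ∉ cone (s : Set V) := by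
        intro γ hγ
        by_cases h : γ w ∈ cone (s : Set V)
        · exact Filter.Eventually.of_forall fun n => hcon γ hγ h n
        · have hc : Continuous γ := LinearMap.continuous_of_finiteDimensional (γ : V →ₗ[ℝ] V)
          have htend : Filter.Tendsto (fun n : ℕ => (1 / ((n : ℝ) + 1)) • x +
              ((n : ℝ) / ((n : ℝ) + 1)) • w) Filter.atTop (nhds w) := by
            have h1 := (tendsto_one_div_add_atTop_nhds_zero_nat (𝕜 := ℝ)).smul_const x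
            have h2 := (tendsto_natCast_div_add_atTop (1 : ℝ)).smul_const w
            have h3 := h1.add h2
            simpa using h3
          have h1 := ((hc.tendsto w).comp htend).eventually
            (hclosed.isOpen_compl.mem_nhds h)
          refine h1.mono fun n hn hmem => hn ?_
          have h2 := cone_smul (c := 1 / ((n : ℝ) + 1)) (by positivity) hmem
          rw [← map_smul, smul_add, smul_smul] at h2
          have h4 : 1 / ((n : ℝ) + 1) * (n : ℝ) = (n : ℝ) / ((n : ℝ) + 1) := by ring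
          rw [h4] at h2
          exact h2
      obtain ⟨n, hn⟩ := ((Filter.eventually_all_finite hK).2 hev).exists
      exact hn (g n) (hgK n) (hgs n)
    obtain ⟨ρ, hρ, hstab⟩ := hℛ γ hγK.1 w hw hγw
    obtain ⟨τ, hτ, γ', hγ', hind⟩ := hT _ hstab
    refine ⟨γ', hγ', ?_⟩
    set x' := x + (n : ℝ) • w with hx'
    have hpx' : p x' = y := by
      rw [hx', map_add, map_smul, hpF w hw.1, smul_zero, add_zero, hxy]
    rw [← hpx', hind]
    have h1 : (ρ * τ) ((τ⁻¹ * (ρ⁻¹ * γ)) x') ∈ cone (s : Set V) := by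
      have : (ρ * τ) ((τ⁻¹ * (ρ⁻¹ * γ)) x') = (ρ * τ * (τ⁻¹ * (ρ⁻¹ * γ))) x' := rfl
      rw [this]
      have h2 : ρ * τ * (τ⁻¹ * (ρ⁻¹ * γ)) = γ := by group
      rw [h2]
      exact hn
    have h3 := hpim _ (hprod ρ hρ τ hτ) _ h1
    refine cone_mono ?_ h3
    intro v hv
    exact Finset.mem_coe.2 (Finset.mem_biUnion.2 ⟨(ρ, τ), Finset.mem_product.2
      ⟨hρ, (Set.Finite.mem_toFinset _).2 hτ⟩, hv⟩)
  · intro y hy
    obtain ⟨x, hx, rfl⟩ := (hE y).1 hy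
    obtain ⟨γ, hγ, hγx⟩ := hcov x hx
    refine ⟨_, ?_, hpim γ hγ x hγx⟩
    intro v hv
    obtain ⟨u, hu, rfl⟩ := Finset.mem_image.1 hv
    exact ⟨(hL _).2 ⟨_, R.presL _ (R.Γ.inv_mem hγ) _ (hs u hu).1, rfl⟩,
      (hE _).2 ⟨_, R.presE _ (R.Γ.inv_mem hγ) _ (hs u hu).2, rfl⟩⟩

end Pool.Agent.W539.Cone
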