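import Pool.Agent.W539.Cone.Prod

set_option autoImplicit false

namespace Pool.Agent.W539.Cone

/-- A lattice `L`, a convex cone `E` (nonempty interior, closure contains no line) and a group `Γ`
of linear automorphisms preserving `L` and `E`. -/
structure ConeRep (V : Type) [NormedAddCommGroup V] [NormedSpace ℝ V] where
  L : AddSubgroup V
  E : Set V
  Γ : Subgroup (V ≃ₗ[ℝ] V)
  lattice : IsLattice L
  cone : IsCone E
  presL : Preserves Γ (L : Set V)
  presE : Preserves Γ E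

/-- `Γ` acts on `E` with a rational polyhedral fundamental domain. -/
def ConeRep.Good {V : Type} [NormedAddCommGroup V] [NormedSpace ℝ V] (R : ConeRep V) : Prop :=
  HasFundDomain R.L R.E R.Γ

/-- `R` lives on the product of the `S i`: lattice and cone are the products, and the group
contains the product of the groups. -/
def IsProd {ι : Type} [Fintype ι] {V : ι → Type} [∀ i, NormedAddCommGroup (V i)]
    [∀ i, NormedSpace ℝ (V i)] (S : ∀ i, ConeRep (V i)) (R : ConeRep (∀ i, V i)) : Prop :=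
  (∀ x, x ∈ R.L ↔ ∀ i, x i ∈ (S i).L) ∧ (∀ x, x ∈ R.E ↔ ∀ i, x i ∈ (S i).E) ∧
    ∀ γ : ∀ i, V i ≃ₗ[ℝ] V i, (∀ i, γ i ∈ (S i).Γ) → LinearEquiv.piCongrRight γ ∈ R.Γ

/-- `Q` is a quotient of `R` by the finite subgroup `G` of its group: it lives on the fixed space
of `G`, with the induced lattice and cone, and its group contains the restrictions of a subgroup
`C` of finite index in the centraliser of `G`. -/
def IsQuot {V : Type} [NormedAddCommGroup V] [NormedSpace ℝ V] (R : ConeRep V)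
    (G : Subgroup (V ≃ₗ[ℝ] V)) (Q : ConeRep (fixed G)) : Prop :=
  Finite G ∧ G ≤ R.Γ ∧ (∀ x, x ∈ Q.L ↔ (x : V) ∈ R.L) ∧ (∀ x, x ∈ Q.E ↔ (x : V) ∈ R.E) ∧
    ∃ C : Subgroup (V ≃ₗ[ℝ] V), C ≤ R.Γ ⊓ Subgroup.centralizer (G : Set (V ≃ₗ[ℝ] V)) ∧
      C.relIndex (R.Γ ⊓ Subgroup.centralizer (G : Set (V ≃ₗ[ℝ] V))) ≠ 0 ∧
      ∀ γ ∈ C, ∃ γ' ∈ Q.Γ, ∀ x : fixed G, (γ' x : V) = γ x

theorem prod_quot {ι : Type} [Fintype ι] {V : ι → Type} [∀ i, NormedAddCommGroup (V i)]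
    [∀ i, NormedSpace ℝ (V i)] [∀ i, FiniteDimensional ℝ (V i)]
    (S : ∀ i, ConeRep (V i)) (hS : ∀ i, (S i).Good) (R : ConeRep (∀ i, V i)) (hR : IsProd S R)
    (G : Subgroup ((∀ i, V i) ≃ₗ[ℝ] (∀ i, V i))) (Q : ConeRep (fixed G)) (hQ : IsQuot R G Q) :
    Q.Good := by
  obtain ⟨hfin, hG, hL, hE, C, -, hC, hres⟩ := hQ
  obtain ⟨h1, h2, h3⟩ := hR
  have hRL : R.L = piLat fun i => (S i).L := by
    ext x; rw [h1, mem_piLat]
  have hRE : R.E = Set.pi Set.univ fun i => (S i).E := by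
    ext x; rw [h2]; simp
  have hQL : Q.L = latIn R.L (fixed G) := by
    ext x; rw [hL]; rfl
  have hQE : Q.E = coneIn R.E (fixed G) := by
    ext x; rw [hE]; rfl
  obtain ⟨s, hs, hcov⟩ := pi_weak (fun i => (S i).cone) hS h3
  rw [← hRL, ← hRE] at hs
  rw [← hRE] at hcov
  have hQΓL := Q.presL
  have hQΓE := Q.presE
  rw [hQL] at hQΓL
  rw [hQE] at hQΓE
  have := quotient_domain R.lattice R.cone R.presL R.presE hs hcov
    (fun g hg => R.presL g (hG hg)) (fun g hg => R.presE g (hG hg))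
    (fun g hg γ hγ => R.Γ.mul_mem (R.Γ.mul_mem (hG hg) hγ) (R.Γ.inv_mem (hG hg))) hC hQΓL hQΓE
    (fun γ hγ _ => hres γ hγ)
  unfold ConeRep.Good
  rw [hQL, hQE]
  exact this

end Pool.Agent.W539.Cone
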