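import Pool.Agent.W539.Cone.Quot

set_option autoImplicit false

namespace Pool.Agent.W539.Cone

lemma weak_of_dom {V : Type*} [NormedAddCommGroup V] [NormedSpace ℝ V] {L : AddSubgroup V}
    {E : Set V} {Γ : Subgroup (V ≃ₗ[ℝ] V)} (h : HasFundDomain L E Γ) :
    ∃ s : Finset V, (∀ v ∈ s, v ∈ L ∧ v ∈ E) ∧ ∀ x ∈ E, ∃ γ ∈ Γ, γ x ∈ cone (s : Set V) := by
  obtain ⟨P, ⟨s, hs, rfl⟩, hcov, -⟩ := h
  refine ⟨s, fun v hv => ⟨hs v hv, ?_⟩, fun x hx => ?_⟩
  · rw [← hcov]
    simp only [Set.mem_iUnion]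
    exact ⟨1, Γ.one_mem, v, subset_cone _ hv, rfl⟩
  · rw [← hcov] at hx
    simp only [Set.mem_iUnion] at hx
    obtain ⟨γ, hγ, y, hy, rfl⟩ := hx
    refine ⟨γ⁻¹, Γ.inv_mem hγ, ?_⟩
    have : (γ⁻¹ : V ≃ₗ[ℝ] V) (γ y) = y := γ.symm_apply_apply y
    rw [this]
    exact hy

variable {ι : Type*} [Fintype ι] {V : ι → Type*} [∀ i, NormedAddCommGroup (V i)]
  [∀ i, NormedSpace ℝ (V i)]

/-- The product lattice. -/
def piLat (L : ∀ i, AddSubgroup (V i)) : AddSubgroup (∀ i, V i) := AddSubgroup.pi Set.univ L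

omit [Fintype ι] [∀ i, NormedSpace ℝ (V i)] in
lemma mem_piLat {L : ∀ i, AddSubgroup (V i)} {x : ∀ i, V i} :
    x ∈ piLat L ↔ ∀ i, x i ∈ L i := by
  simp [piLat, AddSubgroup.mem_pi]

lemma piLat_lattice {L : ∀ i, AddSubgroup (V i)} (hL : ∀ i, IsLattice (L i)) :
    IsLattice (piLat L) := by
  classical
  refine ⟨?_, fun r => ?_⟩
  · rw [eq_top_iff]
    rintro x -
    have h1 : x = ∑ i, LinearMap.single ℝ V i (x i) := by
      have := (Finset.univ_sum_single x).symm
      simpa using this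
    rw [h1]
    refine Submodule.sum_mem _ fun i _ => ?_
    have h2 : Submodule.map (LinearMap.single ℝ V i) (Submodule.span ℝ (L i : Set (V i))) ≤
        Submodule.span ℝ (piLat L : Set (∀ i, V i)) := by
      rw [Submodule.map_span, Submodule.span_le]
      rintro _ ⟨y, hy, rfl⟩
      refine Submodule.subset_span ?_
      rw [SetLike.mem_coe, mem_piLat]
      intro j
      by_cases h : j = i
      · subst h
        simpa using hy
      · simp only [LinearMap.coe_single]
        rw [Pi.single_eq_of_ne h]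
        exact (L j).zero_mem
    refine h2 ⟨x i, ?_, rfl⟩
    rw [(hL i).span_top]
    trivial
  · have h1 : (Set.pi Set.univ fun i => {x : V i | x ∈ L i ∧ ‖x‖ ≤ r}).Finite :=
      Set.Finite.pi fun i => (hL i).finite r
    refine h1.subset ?_
    rintro x ⟨hx, hr⟩ i -
    exact ⟨mem_piLat.1 hx i, (norm_le_pi_norm x i).trans hr⟩

lemma pi_isCone {E : ∀ i, Set (V i)} (hE : ∀ i, IsCone (E i)) : IsCone (Set.pi Set.univ E) := by
  refine ⟨fun i _ => (hE i).zero_mem, fun x hx y hy i hi => (hE i).add_mem _ (hx i hi) _ (hy i hi),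
    fun c hc x hx i hi => (hE i).smul_mem c hc _ (hx i hi), ?_, ?_⟩
  · rw [interior_pi_set Set.finite_univ]
    exact ⟨fun i => (hE i).interior_nonempty.choose,
      fun i _ => (hE i).interior_nonempty.choose_spec⟩
  · intro x hx hx'
    rw [closure_pi_set] at hx hx'
    funext i
    exact (hE i).pointed _ (hx i (Set.mem_univ i)) (hx' i (Set.mem_univ i))

/-- Weak domains of a product. -/
lemma pi_weak {L : ∀ i, AddSubgroup (V i)} {E : ∀ i, Set (V i)} (hE : ∀ i, IsCone (E i))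
    {Γ : ∀ i, Subgroup (V i ≃ₗ[ℝ] V i)} (h : ∀ i, HasFundDomain (L i) (E i) (Γ i))
    {Γp : Subgroup ((∀ i, V i) ≃ₗ[ℝ] (∀ i, V i))}
    (hp : ∀ γ : ∀ i, V i ≃ₗ[ℝ] V i, (∀ i, γ i ∈ Γ i) → LinearEquiv.piCongrRight γ ∈ Γp) :
    ∃ s : Finset (∀ i, V i), (∀ v ∈ s, v ∈ piLat L ∧ v ∈ Set.pi Set.univ E) ∧
      ∀ x ∈ Set.pi Set.univ E, ∃ γ ∈ Γp, γ x ∈ cone (s : Set (∀ i, V i)) := by
  classical
  choose s hs hcov using fun i => weak_of_dom (h i)
  refine ⟨Finset.univ.biUnion fun i => (s i).image (LinearMap.single ℝ V i), ?_, ?_⟩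
  · intro v hv
    obtain ⟨i, -, hv⟩ := Finset.mem_biUnion.1 hv
    obtain ⟨w, hw, rfl⟩ := Finset.mem_image.1 hv
    constructor
    · rw [mem_piLat]
      intro j
      by_cases h : j = i
      · subst h
        simpa using (hs j w hw).1
      · simp only [LinearMap.coe_single]
        rw [Pi.single_eq_of_ne h]
        exact (L j).zero_mem
    · intro j _
      by_cases h : j = i
      · subst h
        simpa using (hs j w hw).2
      · simp only [LinearMap.coe_single]
        rw [Pi.single_eq_of_ne h]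
        exact (hE j).zero_mem
  · intro x hx
    choose γ hγ hγx using fun i => hcov i (x i) (hx i (Set.mem_univ i))
    refine ⟨_, hp γ hγ, ?_⟩
    have h1 : (LinearEquiv.piCongrRight γ) x = ∑ i, LinearMap.single ℝ V i (γ i (x i)) := by
      have := (Finset.univ_sum_single ((LinearEquiv.piCongrRight γ) x)).symm
      simpa using this
    rw [h1]
    refine cone_sum fun i _ => ?_
    have h2 : LinearMap.single ℝ V i '' cone (s i : Set (V i)) ⊆
        cone ((Finset.univ.biUnion fun i => (s i).image (LinearMap.single ℝ V i) :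
          Finset (∀ i, V i)) : Set (∀ i, V i)) := by
      rw [image_cone]
      refine cone_mono ?_
      rintro _ ⟨w, hw, rfl⟩
      exact Finset.mem_coe.2 (Finset.mem_biUnion.2 ⟨i, Finset.mem_univ i,
        Finset.mem_image.2 ⟨w, hw, rfl⟩⟩)
    exact h2 ⟨_, hγx i, rfl⟩

end Pool.Agent.W539.Cone
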