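import Pool.Agent.W539.Cone.Exact

set_option autoImplicit false

namespace Pool.Agent.W539.Cone

variable {V : Type*} [NormedAddCommGroup V] [NormedSpace ℝ V]

/-- The subspace of vectors fixed by the group `G`. -/
def fixed (G : Subgroup (V ≃ₗ[ℝ] V)) : Submodule ℝ V where
  carrier := {x | ∀ g ∈ G, g x = x}
  add_mem' := fun {a b} ha hb g hg => by rw [map_add, ha g hg, hb g hg]
  zero_mem' := fun g _ => map_zero g
  smul_mem' := fun c x hx g hg => by rw [map_smul, hx g hg]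

/-- The lattice `L ∩ W` of a subspace `W`. -/
def latIn (L : AddSubgroup V) (W : Submodule ℝ V) : AddSubgroup W :=
  L.comap W.subtype.toAddMonoidHom

/-- The cone `E ∩ W` in a subspace `W`. -/
def coneIn (E : Set V) (W : Submodule ℝ V) : Set W := {x : W | (x : V) ∈ E}

lemma mem_latIn {L : AddSubgroup V} {W : Submodule ℝ V} {x : W} :
    x ∈ latIn L W ↔ (x : V) ∈ L := Iff.rfl

section

variable {G : Subgroup (V ≃ₗ[ℝ] V)}

lemma avg_fixed [Fintype G] (x : V) : (∑ g : G, (g : V ≃ₗ[ℝ] V) x) ∈ fixed G := by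
  intro h hh
  rw [map_sum]
  refine Fintype.sum_equiv (Equiv.mulLeft (⟨h, hh⟩ : G)) _ _ fun g => ?_
  rfl

/-- the averaging map to the fixed space -/
noncomputable def avg (G : Subgroup (V ≃ₗ[ℝ] V)) [Fintype G] : V →ₗ[ℝ] fixed G :=
  LinearMap.codRestrict (fixed G) (∑ g : G, ((g : V ≃ₗ[ℝ] V) : V →ₗ[ℝ] V)) fun x => by
    rw [LinearMap.sum_apply]
    exact avg_fixed x

lemma avg_coe [Fintype G] (x : V) : (avg G x : V) = ∑ g : G, (g : V ≃ₗ[ℝ] V) x := by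
  simp [avg, LinearMap.sum_apply]

lemma avg_of_fixed [Fintype G] (x : fixed G) : avg G (x : V) = (Fintype.card G : ℝ) • x := by
  apply Subtype.ext
  rw [avg_coe]
  have : ∀ g : G, (g : V ≃ₗ[ℝ] V) (x : V) = x := fun g => x.2 g g.2
  simp [this, Nat.cast_smul_eq_nsmul]

lemma card_pos' [Fintype G] : (0 : ℝ) < Fintype.card G := by
  exact_mod_cast Fintype.card_pos

lemma eq_avg [Fintype G] (x : fixed G) : x = (Fintype.card G : ℝ)⁻¹ • avg G (x : V) := by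
  rw [avg_of_fixed, smul_smul, inv_mul_cancel₀ card_pos'.ne', one_smul]

lemma avg_lat [Fintype G] {L : AddSubgroup V} (hG : Preserves G (L : Set V)) {x : V}
    (hx : x ∈ L) : avg G x ∈ latIn L (fixed G) := by
  rw [mem_latIn, avg_coe]
  exact L.sum_mem fun g _ => hG g g.2 x hx

lemma avg_cone [Fintype G] {E : Set V} (hE : IsCone E) (hG : Preserves G E) {x : V}
    (hx : x ∈ E) : avg G x ∈ coneIn E (fixed G) := by
  show (avg G x : V) ∈ E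
  rw [avg_coe]
  exact hE.sum_mem _ _ fun g _ => hG g g.2 x hx

lemma avg_interior [FiniteDimensional ℝ V] [Fintype G] {E : Set V} (hE : IsCone E)
    (hG : Preserves G E) {x : V} (hx : x ∈ interior E) : (avg G x : V) ∈ interior E := by
  rw [avg_coe]
  refine Finset.sum_induction_nonempty _ (· ∈ interior E)
    (fun a b ha hb => interior_add hE ha (interior_subset hb)) Finset.univ_nonempty ?_
  intro g _
  exact interior_map hG g.2 hx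

lemma coneIn_interior_of {W : Submodule ℝ V} {E : Set V} {x : W}
    (hx : (x : V) ∈ interior E) : x ∈ interior (coneIn E W) := by
  refine mem_interior.2 ⟨Subtype.val ⁻¹' interior E, ?_,
    isOpen_interior.preimage continuous_subtype_val, hx⟩
  intro y hy
  exact interior_subset (s := E) hy

lemma lattice_fixed [FiniteDimensional ℝ V] [Finite G] {L : AddSubgroup V} (hL : IsLattice L)
    (hG : Preserves G (L : Set V)) : IsLattice (latIn L (fixed G)) := by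
  have := Fintype.ofFinite G
  refine ⟨?_, fun r => ?_⟩
  · rw [eq_top_iff]
    have h1 : Submodule.map (avg G) (Submodule.span ℝ (L : Set V)) ≤
        Submodule.span ℝ (latIn L (fixed G) : Set (fixed G)) := by
      rw [Submodule.map_span, Submodule.span_le]
      rintro _ ⟨x, hx, rfl⟩
      exact Submodule.subset_span (avg_lat hG hx)
    refine le_trans ?_ h1
    rw [hL.span_top]
    rintro x -
    refine ⟨(Fintype.card G : ℝ)⁻¹ • (x : V), trivial, ?_⟩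
    rw [map_smul]
    exact (eq_avg x).symm
  · refine Set.Finite.of_finite_image (f := Subtype.val) ((hL.finite r).subset ?_)
      Subtype.val_injective.injOn
    rintro _ ⟨x, ⟨hx1, hx2⟩, rfl⟩
    exact ⟨hx1, hx2⟩

lemma cone_fixed [FiniteDimensional ℝ V] [Finite G] {E : Set V} (hE : IsCone E)
    (hG : Preserves G E) : IsCone (coneIn E (fixed G)) := by
  have := Fintype.ofFinite G
  refine ⟨hE.zero_mem, fun x hx y hy => hE.add_mem _ hx _ hy,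
    fun c hc x hx => hE.smul_mem c hc _ hx, ?_, ?_⟩
  · obtain ⟨y, hy⟩ := hE.interior_nonempty
    exact ⟨avg G y, coneIn_interior_of (avg_interior hE hG hy)⟩
  · intro x hx hx'
    have h1 : ∀ z : fixed G, z ∈ closure (coneIn E (fixed G)) → (z : V) ∈ closure E :=
      fun z hz => map_mem_closure continuous_subtype_val hz fun y hy => hy
    apply Subtype.ext
    exact hE.pointed _ (h1 x hx) (h1 (-x) hx')

lemma interior_fixed [FiniteDimensional ℝ V] [Finite G] {E : Set V} (hE : IsCone E)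
    (hG : Preserves G E) {x : fixed G} (hx : x ∈ interior (coneIn E (fixed G))) :
    (x : V) ∈ interior E := by
  have := Fintype.ofFinite G
  obtain ⟨y, hy⟩ := hE.interior_nonempty
  have hy' := avg_interior (G := G) hE hG hy
  obtain ⟨ε, hε, hb⟩ := Metric.isOpen_iff.1 isOpen_interior x hx
  set z := avg G y
  have hc : 0 < ε / 2 / (‖z‖ + 1) := by positivity
  have h1 : x - (ε / 2 / (‖z‖ + 1)) • z ∈ coneIn E (fixed G) := by
    apply interior_subset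
    apply hb
    rw [Metric.mem_ball, dist_eq_norm, sub_sub_cancel_left, norm_neg, norm_smul, Real.norm_eq_abs,
      abs_of_pos hc]
    have h2 : ε / 2 / (‖z‖ + 1) * (‖z‖ + 1) = ε / 2 := by field_simp
    nlinarith [norm_nonneg z]
  have h3 := add_interior hE (show ((x - (ε / 2 / (‖z‖ + 1)) • z : fixed G) : V) ∈ E from h1)
    (interior_smul hE hy' hc)
  simpa using h3

end

lemma exists_reps {A : Type*} [Group A] {C₀ C : Subgroup A} (h : C₀.relIndex C ≠ 0) :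
    ∃ T : Set A, T.Finite ∧ T ⊆ C ∧ ∀ c ∈ C, ∃ t ∈ T, t⁻¹ * c ∈ C₀ := by
  have hfi : (C₀.subgroupOf C).FiniteIndex := ⟨h⟩
  have : Finite (C ⧸ C₀.subgroupOf C) := Subgroup.finite_quotient_of_finiteIndex
  refine ⟨Set.range fun q : C ⧸ C₀.subgroupOf C => ((q.out : C) : A), Set.finite_range _, ?_, ?_⟩
  · rintro _ ⟨q, rfl⟩
    exact (q.out : C).2
  · intro c hc
    refine ⟨_, ⟨((⟨c, hc⟩ : C) : C ⧸ C₀.subgroupOf C), rfl⟩, ?_⟩
    have h1 : (((⟨c, hc⟩ : C) : C ⧸ C₀.subgroupOf C).out : C ⧸ C₀.subgroupOf C) =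
        ((⟨c, hc⟩ : C) : C ⧸ C₀.subgroupOf C) := QuotientGroup.out_eq' _
    have h2 := QuotientGroup.eq.1 h1
    exact h2

/-- Finitely many coset representatives for the elements which move an interior fixed point of `G`
into the cone. -/
theorem exists_fixed_reps [FiniteDimensional ℝ V] {L : AddSubgroup V} (hL : IsLattice L)
    {E : Set V} (hE : IsCone E) {Γ : Subgroup (V ≃ₗ[ℝ] V)} (hΓL : Preserves Γ (L : Set V))
    (hΓE : Preserves Γ E) {s₀ : Finset V} (hs₀ : ∀ v ∈ s₀, v ∈ L ∧ v ∈ E)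
    {G : Subgroup (V ≃ₗ[ℝ] V)} [Finite G] (hGL : Preserves G (L : Set V)) (hGE : Preserves G E)
    (hnorm : ∀ g ∈ G, ∀ γ ∈ Γ, g * γ * g⁻¹ ∈ Γ) :
    ∃ R : Finset (V ≃ₗ[ℝ] V), ∀ γ ∈ Γ, ∀ x ∈ fixed G, x ∈ interior E → γ x ∈ cone (s₀ : Set V) →
      ∃ ρ ∈ R, ρ ∈ Γ ∧ ρ⁻¹ * γ ∈ Γ ⊓ Subgroup.centralizer (G : Set (V ≃ₗ[ℝ] V)) := by
  classical
  have := Fintype.ofFinite G
  obtain ⟨ξ, hξL, hξE⟩ := exists_integral_pos hL hE
  -- the set of group elements moving an interior fixed point into the domain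
  let 𝒢 : Set (V ≃ₗ[ℝ] V) := {γ | γ ∈ Γ ∧ ∃ x ∈ fixed G, x ∈ interior E ∧ γ x ∈ cone (s₀ : Set V)}
  let Φ : (V ≃ₗ[ℝ] V) → (G → (V ≃ₗ[ℝ] V)) := fun γ g => γ * g * γ⁻¹
  have hgs : ∀ g : G, ∀ v ∈ s₀.image (fun v => (g : V ≃ₗ[ℝ] V) v), v ∈ L ∧ v ∈ E := by
    intro g v hv
    obtain ⟨w, hw, rfl⟩ := Finset.mem_image.1 hv
    exact ⟨hGL g g.2 _ (hs₀ w hw).1, hGE g g.2 _ (hs₀ w hw).2⟩
  have hΦfin : (Φ '' 𝒢).Finite := by
    have h1 : (Set.pi Set.univ fun g : G => (fun δ => δ * (g : V ≃ₗ[ℝ] V)) ''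
        {γ : V ≃ₗ[ℝ] V | γ ∈ Γ ∧ ∃ x ∈ cone ((s₀.image (fun v => (g : V ≃ₗ[ℝ] V) v) : Finset V) : Set V),
          γ x ∈ cone (s₀ : Set V) ∧ γ x ∈ interior E}).Finite :=
      Set.Finite.pi fun g => (siegel hL hE hΓL hΓE hξL hξE (hgs g) hs₀).image _
    refine h1.subset ?_
    rintro _ ⟨γ, ⟨hγ, x, hxW, hxE, hxs⟩, rfl⟩ g -
    refine ⟨γ * g * γ⁻¹ * (g : V ≃ₗ[ℝ] V)⁻¹, ⟨?_, (g : V ≃ₗ[ℝ] V) (γ x), ?_, ?_, ?_⟩, ?_⟩
    · have h2 := hnorm g g.2 _ (Γ.inv_mem hγ)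
      have h3 : γ * g * γ⁻¹ * (g : V ≃ₗ[ℝ] V)⁻¹ = γ * (g * γ⁻¹ * (g : V ≃ₗ[ℝ] V)⁻¹) := by group
      rw [h3]
      exact Γ.mul_mem hγ h2
    · have h4 := image_cone_equiv (g : V ≃ₗ[ℝ] V) (s₀ : Set V)
      rw [Finset.coe_image, ← h4]
      exact ⟨_, hxs, rfl⟩
    · have h5 : (γ * g * γ⁻¹ * (g : V ≃ₗ[ℝ] V)⁻¹) ((g : V ≃ₗ[ℝ] V) (γ x)) = γ x := by
        have h6 : (γ * g * γ⁻¹ * (g : V ≃ₗ[ℝ] V)⁻¹) ((g : V ≃ₗ[ℝ] V) (γ x)) =
            (γ * g * γ⁻¹ * (g : V ≃ₗ[ℝ] V)⁻¹ * g * γ) x := rfl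
        rw [h6]
        have h7 : γ * g * γ⁻¹ * (g : V ≃ₗ[ℝ] V)⁻¹ * g * γ = γ * g := by group
        rw [h7]
        show γ ((g : V ≃ₗ[ℝ] V) x) = γ x
        rw [hxW g g.2]
      rw [h5]
      exact hxs
    · have h5 : (γ * g * γ⁻¹ * (g : V ≃ₗ[ℝ] V)⁻¹) ((g : V ≃ₗ[ℝ] V) (γ x)) = γ x := by
        have h6 : (γ * g * γ⁻¹ * (g : V ≃ₗ[ℝ] V)⁻¹) ((g : V ≃ₗ[ℝ] V) (γ x)) =
            (γ * g * γ⁻¹ * (g : V ≃ₗ[ℝ] V)⁻¹ * g * γ) x := rfl
        rw [h6]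
        have h7 : γ * g * γ⁻¹ * (g : V ≃ₗ[ℝ] V)⁻¹ * g * γ = γ * g := by group
        rw [h7]
        show γ ((g : V ≃ₗ[ℝ] V) x) = γ x
        rw [hxW g g.2]
      rw [h5]
      exact interior_map hΓE hγ hxE
    · show γ * g * γ⁻¹ * (g : V ≃ₗ[ℝ] V)⁻¹ * g = γ * g * γ⁻¹
      group
  -- representatives
  let R : Finset (V ≃ₗ[ℝ] V) := hΦfin.toFinset.image (Function.invFunOn Φ 𝒢)
  have hR : ∀ γ ∈ 𝒢, ∃ ρ ∈ R, ρ ∈ Γ ∧ ρ⁻¹ * γ ∈ Γ ⊓ Subgroup.centralizer (G : Set (V ≃ₗ[ℝ] V)) := by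
    intro γ hγ
    have hmem : Φ γ ∈ Φ '' 𝒢 := ⟨γ, hγ, rfl⟩
    have h1 : Function.invFunOn Φ 𝒢 (Φ γ) ∈ 𝒢 := Function.invFunOn_mem hmem
    have h2 : Φ (Function.invFunOn Φ 𝒢 (Φ γ)) = Φ γ := Function.invFunOn_eq hmem
    set ρ := Function.invFunOn Φ 𝒢 (Φ γ) with hρ
    refine ⟨ρ, Finset.mem_image.2 ⟨Φ γ, (Set.Finite.mem_toFinset _).2 hmem, rfl⟩, h1.1, ?_, ?_⟩
    · exact Γ.mul_mem (Γ.inv_mem h1.1) hγ.1
    · refine Subgroup.mem_centralizer_iff.2 ?_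
      intro g hg
      have h3 : ρ * g * ρ⁻¹ = γ * g * γ⁻¹ := congrFun h2 ⟨g, hg⟩
      calc g * (ρ⁻¹ * γ) = ρ⁻¹ * (ρ * g * ρ⁻¹) * γ := by group
        _ = ρ⁻¹ * (γ * g * γ⁻¹) * γ := by rw [h3]
        _ = ρ⁻¹ * γ * g := by group
  exact ⟨R, fun γ hγ x hx hxE hγx => hR γ ⟨hγ, x, hx, hxE, hγx⟩⟩

/-- The quotient theorem, from a weak fundamental domain on `E`, with coset representatives `T`. -/
theorem quotient_domain_core [FiniteDimensional ℝ V] {L : AddSubgroup V} (hL : IsLattice L)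
    {E : Set V} (hE : IsCone E) {Γ : Subgroup (V ≃ₗ[ℝ] V)} (hΓL : Preserves Γ (L : Set V))
    (hΓE : Preserves Γ E) {s₀ : Finset V} (hs₀ : ∀ v ∈ s₀, v ∈ L ∧ v ∈ E)
    (hcov : ∀ x ∈ E, ∃ γ ∈ Γ, γ x ∈ cone (s₀ : Set V))
    {G : Subgroup (V ≃ₗ[ℝ] V)} [Finite G] (hGL : Preserves G (L : Set V)) (hGE : Preserves G E)
    (hnorm : ∀ g ∈ G, ∀ γ ∈ Γ, g * γ * g⁻¹ ∈ Γ)
    {C₀ : Subgroup (V ≃ₗ[ℝ] V)}
    {T : Set (V ≃ₗ[ℝ] V)} (hTfin : T.Finite)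
    (hTC : T ⊆ (Γ ⊓ Subgroup.centralizer (G : Set (V ≃ₗ[ℝ] V)) : Subgroup (V ≃ₗ[ℝ] V)))
    (hT : ∀ c ∈ Γ ⊓ Subgroup.centralizer (G : Set (V ≃ₗ[ℝ] V)), ∃ t ∈ T, t⁻¹ * c ∈ C₀)
    {Γ' : Subgroup (fixed G ≃ₗ[ℝ] fixed G)}
    (hΓ'L : Preserves Γ' (latIn L (fixed G) : Set (fixed G)))
    (hΓ'E : Preserves Γ' (coneIn E (fixed G)))
    (hΓ' : ∀ γ ∈ C₀, γ ∈ Γ → ∃ γ' ∈ Γ', ∀ x : fixed G, (γ' x : V) = γ x) :
    HasFundDomain (latIn L (fixed G)) (coneIn E (fixed G)) Γ' := by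
  classical
  have := Fintype.ofFinite G
  obtain ⟨R, hR⟩ := exists_fixed_reps hL hE hΓL hΓE hs₀ hGL hGE hnorm
  let R' : Finset (V ≃ₗ[ℝ] V) := (R ×ˢ hTfin.toFinset).image fun p => p.1 * p.2
  let sW : Finset (fixed G) := ((R'.filter (· ∈ Γ)) ×ˢ s₀).image fun p => avg G (p.1⁻¹ p.2)
  have hsW : ∀ v ∈ sW, v ∈ latIn L (fixed G) ∧ v ∈ coneIn E (fixed G) := by
    intro v hv
    obtain ⟨⟨ρ, w⟩, hp, rfl⟩ := Finset.mem_image.1 hv
    obtain ⟨hρ, hw⟩ := Finset.mem_product.1 hp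
    have hρΓ := Γ.inv_mem (Finset.mem_filter.1 hρ).2
    exact ⟨avg_lat hGL (hΓL _ hρΓ _ (hs₀ w hw).1), avg_cone hE hGE (hΓE _ hρΓ _ (hs₀ w hw).2)⟩
  -- averaging argument
  have havg : ∀ (ρ : V ≃ₗ[ℝ] V) (x : fixed G), ρ (x : V) ∈ cone (s₀ : Set V) →
      x ∈ cone ((s₀.image fun v => avg G ((ρ⁻¹ : V ≃ₗ[ℝ] V) v) : Finset (fixed G)) :
        Set (fixed G)) := by
    intro ρ x hx
    obtain ⟨t, ht, hsum⟩ := mem_cone.1 hx
    have h1 : (x : V) = (ρ⁻¹ : V ≃ₗ[ℝ] V) (∑ v ∈ s₀, t v • v) := by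
      rw [hsum]
      exact (ρ.symm_apply_apply (x : V)).symm
    rw [eq_avg x, h1, map_sum, map_sum]
    refine cone_smul (inv_nonneg.2 card_pos'.le) (cone_sum fun v hv => ?_)
    rw [map_smul, map_smul]
    refine cone_smul (ht v hv) (subset_cone _ ?_)
    exact Finset.mem_coe.2 (Finset.mem_image.2 ⟨v, hv, rfl⟩)
  refine exact_of_weak (lattice_fixed hL hGL) (cone_fixed hE hGE) hΓ'L hΓ'E (s₀ := sW) hsW ?_ ?_
  · intro x hx
    have hxE := interior_fixed hE hGE hx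
    obtain ⟨γ, hγ, hγx⟩ := hcov x (interior_subset hxE)
    obtain ⟨ρ, hρ, hρΓ, hc⟩ := hR γ hγ x x.2 hxE hγx
    obtain ⟨t, htT, ht⟩ := hT _ hc
    have htΓ : t ∈ Γ := (hTC htT).1
    have hc₀Γ : t⁻¹ * (ρ⁻¹ * γ) ∈ Γ := Γ.mul_mem (Γ.inv_mem htΓ) hc.1
    obtain ⟨γ', hγ', hres⟩ := hΓ' _ ht hc₀Γ
    refine ⟨γ', hγ', ?_⟩
    have h1 : (ρ * t) (γ' x : V) ∈ cone (s₀ : Set V) := by
      rw [hres]
      have : (ρ * t) ((t⁻¹ * (ρ⁻¹ * γ)) (x : V)) = (ρ * t * (t⁻¹ * (ρ⁻¹ * γ))) (x : V) := rfl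
      rw [this]
      have h2 : ρ * t * (t⁻¹ * (ρ⁻¹ * γ)) = γ := by group
      rw [h2]
      exact hγx
    refine cone_mono ?_ (havg (ρ * t) (γ' x) h1)
    intro v hv
    obtain ⟨w, hw, rfl⟩ := Finset.mem_image.1 (Finset.mem_coe.1 hv)
    refine Finset.mem_coe.2 (Finset.mem_image.2 ⟨(ρ * t, w), Finset.mem_product.2
      ⟨Finset.mem_filter.2 ⟨Finset.mem_image.2 ⟨(ρ, t), Finset.mem_product.2
        ⟨hρ, (Set.Finite.mem_toFinset _).2 htT⟩, rfl⟩, Γ.mul_mem hρΓ htΓ⟩, hw⟩, rfl⟩)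
  · intro x hx
    obtain ⟨γ, hγ, hγx⟩ := hcov x hx
    refine ⟨_, ?_, havg γ x hγx⟩
    intro v hv
    obtain ⟨w, hw, rfl⟩ := Finset.mem_image.1 hv
    have hρΓ := Γ.inv_mem hγ
    exact ⟨avg_lat hGL (hΓL _ hρΓ _ (hs₀ w hw).1), avg_cone hE hGE (hΓE _ hρΓ _ (hs₀ w hw).2)⟩

/-- The quotient theorem, from a weak fundamental domain on `E`. -/
theorem quotient_domain [FiniteDimensional ℝ V] {L : AddSubgroup V} (hL : IsLattice L)
    {E : Set V} (hE : IsCone E) {Γ : Subgroup (V ≃ₗ[ℝ] V)} (hΓL : Preserves Γ (L : Set V))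
    (hΓE : Preserves Γ E) {s₀ : Finset V} (hs₀ : ∀ v ∈ s₀, v ∈ L ∧ v ∈ E)
    (hcov : ∀ x ∈ E, ∃ γ ∈ Γ, γ x ∈ cone (s₀ : Set V))
    {G : Subgroup (V ≃ₗ[ℝ] V)} [Finite G] (hGL : Preserves G (L : Set V)) (hGE : Preserves G E)
    (hnorm : ∀ g ∈ G, ∀ γ ∈ Γ, g * γ * g⁻¹ ∈ Γ)
    {C₀ : Subgroup (V ≃ₗ[ℝ] V)}
    (hfin : C₀.relIndex (Γ ⊓ Subgroup.centralizer (G : Set (V ≃ₗ[ℝ] V))) ≠ 0)
    {Γ' : Subgroup (fixed G ≃ₗ[ℝ] fixed G)}
    (hΓ'L : Preserves Γ' (latIn L (fixed G) : Set (fixed G)))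
    (hΓ'E : Preserves Γ' (coneIn E (fixed G)))
    (hΓ' : ∀ γ ∈ C₀, γ ∈ Γ → ∃ γ' ∈ Γ', ∀ x : fixed G, (γ' x : V) = γ x) :
    HasFundDomain (latIn L (fixed G)) (coneIn E (fixed G)) Γ' := by
  obtain ⟨T, hTfin, hTC, hT⟩ := exists_reps hfin
  exact quotient_domain_core hL hE hΓL hΓE hs₀ hcov hGL hGE hnorm hTfin hTC hT hΓ'L hΓ'E hΓ'

end Pool.Agent.W539.Cone
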